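import Mathlib

/-!
Definitions: hypersurfaces in complex affine space, their singular points, and
quasihomogeneous polynomials.
-/

namespace Pool.Agent.Lib.AA2e78

open Topology

/-- The hypersurface `{p = 0}` in `ℂ^n`; as a subset of `Fin n → ℂ` it carries the Euclidean
(subspace) topology. -/
def Hypersurface {n : ℕ} (p : MvPolynomial (Fin n) ℂ) : Set (Fin n → ℂ) :=
  {x | MvPolynomial.eval x p = 0}

/-- `a` is a singular point of the hypersurface `{p = 0}` (for `p` generating the ideal of the
hypersurface): `p` and all its first partial derivatives vanish at `a`. -/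
def IsSingularPoint {n : ℕ} (p : MvPolynomial (Fin n) ℂ) (a : Fin n → ℂ) : Prop :=
  MvPolynomial.eval a p = 0 ∧ ∀ i, MvPolynomial.eval a (MvPolynomial.pderiv i p) = 0

/-- `a` is an isolated singular point of `{p = 0}`: it is a singular point and some Euclidean
neighbourhood of `a` contains no other singular point. -/
def IsIsolatedSingularPoint {n : ℕ} (p : MvPolynomial (Fin n) ℂ) (a : Fin n → ℂ) : Prop :=
  IsSingularPoint p a ∧ ∃ U ∈ 𝓝 a, ∀ b ∈ U, IsSingularPoint p b → b = a

/-- The Hessian matrix of `p` at `a`. A singular point of `{p = 0}` at which it is invertible is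
an ordinary double point. -/
noncomputable def hessian {n : ℕ} (p : MvPolynomial (Fin n) ℂ) (a : Fin n → ℂ) :
    Matrix (Fin n) (Fin n) ℂ :=
  Matrix.of fun i j => MvPolynomial.eval a (MvPolynomial.pderiv i (MvPolynomial.pderiv j p))

/-- `q` is quasihomogeneous: there are positive integer weights `w i` and an integer `d` with
`q (t^{w_1} x_1, ..., t^{w_n} x_n) = t^d q(x)` for all nonzero complex `t` and all `x`. -/
def IsQuasihomogeneous {n : ℕ} (q : MvPolynomial (Fin n) ℂ) : Prop :=
  ∃ (w : Fin n → ℕ) (d : ℤ), (∀ i, 0 < w i) ∧ ∀ t : ℂ, t ≠ 0 → ∀ x : Fin n → ℂ,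
    MvPolynomial.eval (fun i => t ^ w i * x i) q = t ^ d * MvPolynomial.eval x q

end Pool.Agent.Lib.AA2e78
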