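import Mathlib

/-!
Contractibility of the surface `S = {pt = 1}` in complex 3-space, part 1:
the space `U` (complement of a ray in complex 2-space) is contractible.
-/

namespace Pool.Agent.Lib.AA2e78

noncomputable section

open Complex unitInterval

theorem homotopic_of {X Y : Type*} [TopologicalSpace X] [TopologicalSpace Y] (f g : C(X, Y))
    (H : I × X → Y) (hc : Continuous H) (h0 : ∀ x, H (0, x) = f x) (h1 : ∀ x, H (1, x) = g x) :
    f.Homotopic g := ⟨⟨⟨H, hc⟩, h0, h1⟩⟩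

/-- The auxiliary polynomial, with `z * pt x y z = (1 + x z) ^ 2 - (1 + y z) ^ 3`. -/
def pt (x y z : ℂ) : ℂ := 2 * x - 3 * y + z * (x ^ 2 - 3 * y ^ 2) - z ^ 2 * y ^ 3

theorem z_mul_pt (x y z : ℂ) : z * pt x y z = (1 + x * z) ^ 2 - (1 + y * z) ^ 3 := by
  unfold pt; ring

theorem continuous_pt : Continuous (fun v : ℂ × ℂ × ℂ => pt v.1 v.2.1 v.2.2) := by
  unfold pt; fun_prop

def rho (Y : ℂ) : ℝ := ‖Y‖ * Real.sqrt ‖Y‖

theorem rho_nonneg (Y : ℂ) : 0 ≤ rho Y := by unfold rho; positivity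

theorem rho_sq (Y : ℂ) : rho Y ^ 2 = ‖Y‖ ^ 3 := by
  unfold rho
  rw [mul_pow, Real.sq_sqrt (norm_nonneg _)]; ring

theorem continuous_rho : Continuous rho := by unfold rho; fun_prop

/-- Complement of the ray `(-r^3, r^2)`, `r ≥ 0`. -/
abbrev U := {v : ℂ × ℂ // ¬ (v.1 = -(rho v.2 : ℂ) ∧ v.2 = (‖v.2‖ : ℂ))}

def HUy (s : ℝ) (Y : ℂ) : ℂ := ((1 - s : ℝ) : ℂ) * Y - (s : ℂ)

def HUx (s : ℝ) (X Y : ℂ) : ℂ := ((1 - s : ℝ) : ℂ) * (X + rho Y) - rho (HUy s Y)

theorem HU_mem (s : ℝ) (hs0 : 0 ≤ s) (hs1 : s ≤ 1) (X Y : ℂ)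
    (h : ¬ (X = -(rho Y : ℂ) ∧ Y = (‖Y‖ : ℂ))) :
    ¬ (HUx s X Y = -(rho (HUy s Y) : ℂ) ∧ HUy s Y = (‖HUy s Y‖ : ℂ)) := by
  rintro ⟨h1, h2⟩
  apply h
  have h3 : ((1 - s : ℝ) : ℂ) * (X + rho Y) = 0 := by
    unfold HUx at h1
    linear_combination h1
  have hs : s ≠ 1 := by
    intro hs
    subst hs
    unfold HUy at h2
    simp at h2
    have := congrArg Complex.re h2
    simp at this
    norm_num at this
  have hs' : 0 < 1 - s := by
    rcases lt_or_eq_of_le hs1 with h | h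
    · linarith
    · exact absurd h hs
  have h4 : ((1 - s : ℝ) : ℂ) ≠ 0 := by exact_mod_cast hs'.ne'
  have h5 : X + rho Y = 0 := by
    rcases mul_eq_zero.mp h3 with h | h
    · exact absurd h h4
    · exact h
  refine ⟨by linear_combination h5, ?_⟩
  have h6 : Y = (((‖HUy s Y‖ + s) / (1 - s) : ℝ) : ℂ) := by
    push_cast
    push_cast at h4
    rw [eq_div_iff h4, ← h2]
    unfold HUy
    push_cast
    ring
  have h7 : 0 ≤ (‖HUy s Y‖ + s) / (1 - s) := by positivity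
  rw [h6, Complex.norm_real, Real.norm_of_nonneg h7]

theorem contractible_U : ContractibleSpace U := by
  rw [contractible_iff_id_nullhomotopic]
  have hm : ¬ (((-1 : ℂ), (-1 : ℂ)).1 = -(rho ((-1 : ℂ), (-1 : ℂ)).2 : ℂ) ∧
      ((-1 : ℂ), (-1 : ℂ)).2 = (‖((-1 : ℂ), (-1 : ℂ)).2‖ : ℂ)) := by
    rintro ⟨-, h⟩
    simp at h
    have := congrArg Complex.re h
    simp at this
    norm_num at this
  refine ⟨⟨((-1 : ℂ), (-1 : ℂ)), hm⟩, ?_⟩
  refine homotopic_of _ _ (fun p => ⟨(HUx p.1 p.2.1.1 p.2.1.2, HUy p.1 p.2.1.2),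
    HU_mem p.1 p.1.2.1 p.1.2.2 _ _ p.2.2⟩) ?_ ?_ ?_
  · refine Continuous.subtype_mk ?_ _
    have h2 : Continuous (fun p : I × U => HUy p.1 p.2.1.2) := by
      unfold HUy; fun_prop
    have h1 : Continuous (fun p : I × U => HUx p.1 p.2.1.1 p.2.1.2) := by
      unfold HUx
      have h3 : Continuous (fun p : I × U => rho p.2.1.2) :=
        continuous_rho.comp (by fun_prop)
      have h4 : Continuous (fun p : I × U => rho (HUy p.1 p.2.1.2)) :=
        continuous_rho.comp h2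
      fun_prop
    exact h1.prodMk h2
  · intro x
    apply Subtype.ext
    simp [HUx, HUy]
  · intro x
    apply Subtype.ext
    simp [HUx, HUy, rho]

end

end Pool.Agent.Lib.AA2e78
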