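import Mathlib
import Pool.Agent.Lib.AA2e78.PartA1

/-!
Contractibility of the surface `S = {pt = 1}` in complex 3-space, part 2:
maps between `S` and `U` and the contraction.
-/

namespace Pool.Agent.Lib.AA2e78

noncomputable section

open Complex unitInterval

/-- The surface `pt = 1`. -/
abbrev S := {v : ℂ × ℂ × ℂ // pt v.1 v.2.1 v.2.2 = 1}

def ff (X Y : ℂ) : ℂ := X ^ 2 - Y ^ 3

def BB (X Y : ℂ) : ℝ := ‖X‖ * ‖Y‖ + (X * (starRingEnd ℂ) Y).re

def DD (X Y : ℂ) : ℝ := ‖ff X Y‖ ^ 2 + ‖X‖ ^ 2 * BB X Y ^ 2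

def sig (X Y : ℂ) : ℂ := (starRingEnd ℂ) X * (BB X Y : ℂ) ^ 2 / (DD X Y : ℂ)

def kap (X Y : ℂ) : ℂ := (starRingEnd ℂ) (ff X Y) / (DD X Y : ℂ)

theorem DD_nonneg (X Y : ℂ) : 0 ≤ DD X Y := by unfold DD; positivity

theorem DD_pos (X Y : ℂ) (h : ¬ (X = -(rho Y : ℂ) ∧ Y = (‖Y‖ : ℂ))) : 0 < DD X Y := by
  refine lt_of_le_of_ne (DD_nonneg X Y) (fun h0 => h ?_)
  have h1 : ‖ff X Y‖ ^ 2 = 0 ∧ ‖X‖ ^ 2 * BB X Y ^ 2 = 0 := by
    have h2 : 0 ≤ ‖ff X Y‖ ^ 2 := by positivity
    have h3 : 0 ≤ ‖X‖ ^ 2 * BB X Y ^ 2 := by positivity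
    unfold DD at h0
    constructor <;> linarith
  have hf : ff X Y = 0 := by
    have := h1.1
    simpa using this
  have hXB : ‖X‖ * BB X Y = 0 := by
    have := h1.2
    have h2 : (‖X‖ * BB X Y) ^ 2 = 0 := by rw [mul_pow]; exact this
    exact pow_eq_zero_iff (two_ne_zero) |>.mp h2
  have hXY : X ^ 2 = Y ^ 3 := by
    unfold ff at hf
    linear_combination hf
  rcases mul_eq_zero.mp hXB with hX | hB
  · have hX0 : X = 0 := by simpa using hX
    have hY0 : Y = 0 := by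
      rw [hX0] at hXY
      have : Y ^ 3 = 0 := by rw [← hXY]; ring
      exact pow_eq_zero_iff (three_ne_zero) |>.mp this
    subst hX0 hY0
    simp [rho]
  · by_cases hY0 : Y = 0
    · have hX0 : X = 0 := by
        rw [hY0] at hXY
        have : X ^ 2 = 0 := by rw [hXY]; ring
        exact pow_eq_zero_iff (two_ne_zero) |>.mp this
      subst hX0 hY0
      simp [rho]
    · -- `X * conj Y = - ‖X‖ ‖Y‖`
      have hre : (X * (starRingEnd ℂ) Y).re = -‖X * (starRingEnd ℂ) Y‖ := by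
        rw [norm_mul, Complex.norm_conj]
        unfold BB at hB
        linarith
      have hval : X * (starRingEnd ℂ) Y = -((‖X‖ * ‖Y‖ : ℝ) : ℂ) := by
        have him : (X * (starRingEnd ℂ) Y).im = 0 := by
          have h2 := Complex.sq_norm (X * (starRingEnd ℂ) Y)
          rw [Complex.normSq_apply] at h2
          have : (X * (starRingEnd ℂ) Y).im ^ 2 = 0 := by
            have h3 : ‖X * (starRingEnd ℂ) Y‖ = -(X * (starRingEnd ℂ) Y).re := by linarith
            rw [h3] at h2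
            nlinarith
          exact pow_eq_zero_iff (two_ne_zero) |>.mp this
        apply Complex.ext
        · rw [hre, norm_mul, Complex.norm_conj]
          simp
        · rw [him]; simp
      have hYY : Y * (starRingEnd ℂ) Y = ((‖Y‖ : ℝ) : ℂ) ^ 2 := by
        rw [Complex.mul_conj, Complex.normSq_eq_norm_sq]; push_cast; ring
      have hnY : (‖Y‖ : ℝ) ≠ 0 := by simpa using hY0
      have hnYC : ((‖Y‖ : ℝ) : ℂ) ≠ 0 := by exact_mod_cast hnY
      have hnorm : ‖X‖ ^ 2 = ‖Y‖ ^ 3 := by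
        have := congrArg norm hXY
        simpa [norm_pow] using this
      have hnormC : ((‖X‖ : ℝ) : ℂ) ^ 2 = ((‖Y‖ : ℝ) : ℂ) ^ 3 := by exact_mod_cast hnorm
      have hYval : Y = ((‖Y‖ : ℝ) : ℂ) := by
        have h2 : Y * (((‖Y‖ : ℝ) : ℂ) ^ 2) ^ 2 = ((‖Y‖ : ℝ) : ℂ) ^ 3 * ((‖Y‖ : ℝ) : ℂ) ^ 2 := by
          rw [← hnormC, ← hYY]
          have h3 : (X * (starRingEnd ℂ) Y) ^ 2 = ((‖X‖ : ℝ) : ℂ) ^ 2 * ((‖Y‖ : ℝ) : ℂ) ^ 2 := by
            rw [hval]; push_cast; ring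
          rw [hYY]
          calc Y * (((‖Y‖ : ℝ) : ℂ) ^ 2) ^ 2 = Y * (Y * (starRingEnd ℂ) Y) ^ 2 := by rw [hYY]
            _ = Y ^ 3 * (starRingEnd ℂ) Y ^ 2 := by ring
            _ = (X * (starRingEnd ℂ) Y) ^ 2 := by rw [← hXY]; ring
            _ = _ := h3
        have h4 : ((‖Y‖ : ℝ) : ℂ) ^ 4 ≠ 0 := pow_ne_zero _ hnYC
        apply mul_right_cancel₀ h4
        linear_combination h2
      have hXval : X = -((‖X‖ : ℝ) : ℂ) := by
        have h2 : (starRingEnd ℂ) Y = ((‖Y‖ : ℝ) : ℂ) := by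
          rw [hYval, Complex.conj_ofReal]; simp
        rw [h2] at hval
        apply mul_right_cancel₀ hnYC
        rw [hval]; push_cast; ring
      refine ⟨?_, hYval⟩
      have hrho : rho Y = ‖X‖ := by
        have h2 : rho Y ^ 2 = ‖X‖ ^ 2 := by rw [rho_sq, hnorm]
        exact (pow_left_inj₀ (rho_nonneg _) (norm_nonneg _) two_ne_zero).mp h2
      rw [hrho]
      exact hXval

theorem kap_sig (X Y : ℂ) (h : 0 < DD X Y) : kap X Y * ff X Y + X * sig X Y = 1 := by
  have hD : (DD X Y : ℂ) ≠ 0 := by exact_mod_cast h.ne'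
  unfold kap sig
  field_simp
  have h1 : (starRingEnd ℂ) (ff X Y) * ff X Y = ((‖ff X Y‖ ^ 2 : ℝ) : ℂ) := by
    rw [mul_comm, Complex.mul_conj, Complex.normSq_eq_norm_sq]
  have h2 : X * (starRingEnd ℂ) X = ((‖X‖ ^ 2 : ℝ) : ℂ) := by
    rw [Complex.mul_conj, Complex.normSq_eq_norm_sq]
  have h3 : (DD X Y : ℂ) = ((‖ff X Y‖ ^ 2 : ℝ) : ℂ) + ((‖X‖ ^ 2 : ℝ) : ℂ) * (BB X Y : ℂ) ^ 2 := by
    unfold DD; push_cast; ring
  rw [h3, ← h1, ← h2]

/-- The factor `X sg` is a real number in `[0,1]`. -/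
theorem X_sig (X Y : ℂ) (h : 0 < DD X Y) :
    ∃ b : ℝ, 0 ≤ b ∧ b ≤ 1 ∧ X * sig X Y = (b : ℂ) ∧ (b = 0 → sig X Y = 0) := by
  refine ⟨‖X‖ ^ 2 * BB X Y ^ 2 / DD X Y, by positivity, ?_, ?_, ?_⟩
  · rw [div_le_one h]
    unfold DD
    have : 0 ≤ ‖ff X Y‖ ^ 2 := by positivity
    linarith
  · unfold sig
    have h2 : X * (starRingEnd ℂ) X = ((‖X‖ ^ 2 : ℝ) : ℂ) := by
      rw [Complex.mul_conj, Complex.normSq_eq_norm_sq]
    push_cast
    rw [← mul_div_assoc, ← mul_assoc, h2]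
    push_cast
    ring
  · intro hb
    have h1 : ‖X‖ ^ 2 * BB X Y ^ 2 = 0 := by
      rcases div_eq_zero_iff.mp hb with h1 | h1
      · exact h1
      · exact absurd h1 h.ne'
    rcases mul_eq_zero.mp h1 with h2 | h2
    · have : X = 0 := by simpa using h2
      unfold sig; simp [this]
    · have : BB X Y = 0 := by simpa using h2
      unfold sig; simp [this]

theorem mu_ne_zero (X Y : ℂ) (h : 0 < DD X Y) (τ : ℝ) (h0 : 0 ≤ τ) (h1 : τ ≤ 1) :
    1 + (τ : ℂ) * (sig X Y * (Y - X)) ≠ 0 := by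
  intro hmu
  obtain ⟨b, hb0, hb1, hb, hb'⟩ := X_sig X Y h
  have hsig : sig X Y ≠ 0 := by
    intro hs
    rw [hs] at hmu
    simp at hmu
  have hX : X ≠ 0 := by
    intro hX
    apply hsig
    unfold sig; simp [hX]
  set a : ℝ := τ * b with ha
  have ha0 : 0 ≤ a := by positivity
  have ha1 : a ≤ 1 := by nlinarith
  have e1 : ((1 - a : ℝ) : ℂ) * X + (a : ℂ) * Y = 0 := by
    have : X * (1 + (τ : ℂ) * (sig X Y * (Y - X))) = 0 := by rw [hmu]; ring
    rw [ha]; push_cast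
    linear_combination this - (τ : ℂ) * (Y - X) * hb
  have hapos : 0 < a := by
    refine lt_of_le_of_ne ha0 (fun h => ?_)
    rw [← h] at e1
    simp at e1
    exact hX e1
  -- norms
  have e2 : (a : ℂ) * Y = -(((1 - a : ℝ) : ℂ) * X) := by linear_combination e1
  have e3 : a * ‖Y‖ = (1 - a) * ‖X‖ := by
    have := congrArg norm e2
    rw [norm_neg, norm_mul, norm_mul, Complex.norm_real, Complex.norm_real,
      Real.norm_of_nonneg ha0, Real.norm_of_nonneg (by linarith)] at this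
    exact this
  have e4 : a * (X * (starRingEnd ℂ) Y).re = -((1 - a) * ‖X‖ ^ 2) := by
    have h2 : (starRingEnd ℂ) ((a : ℂ) * Y) = (starRingEnd ℂ) (-(((1 - a : ℝ) : ℂ) * X)) := by
      rw [e2]
    rw [map_neg, map_mul, map_mul, Complex.conj_ofReal, Complex.conj_ofReal] at h2
    have h3 : (a : ℂ) * (X * (starRingEnd ℂ) Y) = ((-((1 - a) * ‖X‖ ^ 2) : ℝ) : ℂ) := by
      have h4 : X * (starRingEnd ℂ) X = ((‖X‖ ^ 2 : ℝ) : ℂ) := by
        rw [Complex.mul_conj, Complex.normSq_eq_norm_sq]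
      push_cast at h4 h2 ⊢
      linear_combination X * h2 - (1 - (a : ℂ)) * h4
    have h5 := congrArg Complex.re h3
    rw [Complex.re_ofReal_mul, Complex.ofReal_re] at h5
    exact h5
  have e5 : a * BB X Y = 0 := by
    unfold BB
    linear_combination ‖X‖ * e3 + e4
  have hB : BB X Y = 0 := by
    rcases mul_eq_zero.mp e5 with h | h
    · exact absurd h hapos.ne'
    · exact h
  apply hsig
  unfold sig; simp [hB]

/-! ### The map `U → S` -/

def tt (X Y : ℂ) : ℂ := kap X Y * ff X Y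

def mu (X Y : ℂ) : ℂ := tt X Y + sig X Y * Y

def gA (X Y : ℂ) : ℂ :=
  kap X Y * X * (tt X Y ^ 2 + 3 * tt X Y * (sig X Y * Y) + 3 * (sig X Y * Y) ^ 2)
    - sig X Y ^ 3 * X - kap X Y * (3 - 3 * tt X Y + tt X Y ^ 2)

def gB (X Y : ℂ) : ℂ :=
  kap X Y * (tt X Y * Y + 2 * sig X Y * Y ^ 2 - 2 + tt X Y) - sig X Y ^ 2

theorem gA_mul (X Y : ℂ) (h : 0 < DD X Y) : gA X Y * ff X Y = mu X Y ^ 3 * X - 1 := by
  have h1 := kap_sig X Y h
  have h2 : Y ^ 3 = X ^ 2 - ff X Y := by unfold ff; ring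
  unfold gA mu tt
  generalize ff X Y = f at *
  generalize kap X Y = k at *
  generalize sig X Y = sg at *
  have h3 : X * sg = 1 - k * f := by linear_combination h1
  linear_combination (-(sg ^ 3 * X)) * h2 +
    (-((X * sg) ^ 2 + (X * sg) * (1 - k * f) + (1 - k * f) ^ 2)) * h3

theorem gB_mul (X Y : ℂ) (h : 0 < DD X Y) : gB X Y * ff X Y = mu X Y ^ 2 * Y - 1 := by
  have h1 := kap_sig X Y h
  have h2 : Y ^ 3 = X ^ 2 - ff X Y := by unfold ff; ring
  unfold gB mu tt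
  generalize ff X Y = f at *
  generalize kap X Y = k at *
  generalize sig X Y = sg at *
  have h3 : X * sg = 1 - k * f := by linear_combination h1
  linear_combination (-(sg ^ 2)) * h2 + (-((X * sg) + (1 - k * f))) * h3

theorem mu_eq (X Y : ℂ) (h : 0 < DD X Y) : mu X Y = 1 + sig X Y * (Y - X) := by
  have h1 := kap_sig X Y h
  unfold mu tt
  linear_combination h1

theorem mu_ne (X Y : ℂ) (h : 0 < DD X Y) : mu X Y ≠ 0 := by
  rw [mu_eq X Y h]
  have := mu_ne_zero X Y h 1 (by norm_num) (by norm_num)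
  simpa using this

theorem g_mem (X Y : ℂ) (h : 0 < DD X Y) :
    pt (gA X Y / mu X Y ^ 6) (gB X Y / mu X Y ^ 6) (mu X Y ^ 6 * ff X Y) = 1 := by
  have hmu := mu_ne X Y h
  have hA := gA_mul X Y h
  have hB := gB_mul X Y h
  by_cases hf : ff X Y = 0
  · have h1 := kap_sig X Y h
    have hXY : X ^ 2 = Y ^ 3 := by unfold ff at hf; linear_combination hf
    rw [hf] at h1
    have hs : X * sig X Y = 1 := by linear_combination h1
    have h2 : 2 * gA X Y - 3 * gB X Y = mu X Y ^ 6 := by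
      unfold gA gB mu tt
      rw [hf]
      generalize kap X Y = k at *
      generalize sig X Y = sg at *
      have h3 : (sg * Y) ^ 6 = sg ^ 2 := by
        calc (sg * Y) ^ 6 = sg ^ 6 * (Y ^ 3) ^ 2 := by ring
          _ = (X * sg) ^ 4 * sg ^ 2 := by rw [← hXY]; ring
          _ = sg ^ 2 := by rw [hs]; ring
      have h4 : sg ^ 3 * X = sg ^ 2 := by
        calc sg ^ 3 * X = (X * sg) * sg ^ 2 := by ring
          _ = sg ^ 2 := by rw [hs]; ring
      simp only [mul_zero, zero_add]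
      rw [h3, h4]
      linear_combination (6 * k * sg * Y ^ 2) * hs
    rw [hf, mul_zero]
    unfold pt
    have h5 : mu X Y ^ 6 ≠ 0 := pow_ne_zero _ hmu
    have h6 : 2 * (gA X Y / mu X Y ^ 6) - 3 * (gB X Y / mu X Y ^ 6) = 1 := by
      have h7 : 2 * (gA X Y / mu X Y ^ 6) - 3 * (gB X Y / mu X Y ^ 6)
          = (2 * gA X Y - 3 * gB X Y) / mu X Y ^ 6 := by ring
      rw [h7, h2, div_self h5]
    linear_combination h6
  · have hz : mu X Y ^ 6 * ff X Y ≠ 0 := mul_ne_zero (pow_ne_zero _ hmu) hf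
    apply mul_left_cancel₀ hz
    rw [z_mul_pt]
    have e1 : gA X Y / mu X Y ^ 6 * (mu X Y ^ 6 * ff X Y) = gA X Y * ff X Y := by
      field_simp
    have e2 : gB X Y / mu X Y ^ 6 * (mu X Y ^ 6 * ff X Y) = gB X Y * ff X Y := by
      field_simp
    rw [e1, e2, hA, hB]
    unfold ff
    ring

theorem U_DD (v : U) : 0 < DD v.1.1 v.1.2 := DD_pos _ _ v.2

def gmap : C(U, S) where
  toFun v := ⟨(gA v.1.1 v.1.2 / mu v.1.1 v.1.2 ^ 6, gB v.1.1 v.1.2 / mu v.1.1 v.1.2 ^ 6,
    mu v.1.1 v.1.2 ^ 6 * ff v.1.1 v.1.2), g_mem _ _ (U_DD v)⟩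
  continuous_toFun := by
    refine Continuous.subtype_mk ?_ _
    have hff : Continuous (fun v : U => ff v.1.1 v.1.2) := by unfold ff; fun_prop
    have hBB : Continuous (fun v : U => BB v.1.1 v.1.2) := by unfold BB; fun_prop
    have hDD : Continuous (fun v : U => DD v.1.1 v.1.2) := by unfold DD; fun_prop
    have hDDC : Continuous (fun v : U => (DD v.1.1 v.1.2 : ℂ)) := by fun_prop
    have hDD0 : ∀ v : U, (DD v.1.1 v.1.2 : ℂ) ≠ 0 := fun v => by
      exact_mod_cast (U_DD v).ne'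
    have hkap : Continuous (fun v : U => kap v.1.1 v.1.2) := by
      unfold kap; exact Continuous.div (by fun_prop) hDDC hDD0
    have hsig : Continuous (fun v : U => sig v.1.1 v.1.2) := by
      unfold sig; exact Continuous.div (by fun_prop) hDDC hDD0
    have htt : Continuous (fun v : U => tt v.1.1 v.1.2) := by unfold tt; fun_prop
    have hmu : Continuous (fun v : U => mu v.1.1 v.1.2) := by unfold mu; fun_prop
    have hgA : Continuous (fun v : U => gA v.1.1 v.1.2) := by unfold gA; fun_prop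
    have hgB : Continuous (fun v : U => gB v.1.1 v.1.2) := by unfold gB; fun_prop
    have hmu0 : ∀ v : U, mu v.1.1 v.1.2 ^ 6 ≠ 0 := fun v => pow_ne_zero _ (mu_ne _ _ (U_DD v))
    exact (hgA.div (hmu.pow 6) hmu0).prodMk ((hgB.div (hmu.pow 6) hmu0).prodMk
      ((hmu.pow 6).mul hff))

/-! ### The map `S → U` -/

theorem S_ff (x y z : ℂ) (h : pt x y z = 1) : ff (1 + x * z) (1 + y * z) = z := by
  unfold ff
  rw [← z_mul_pt, h, mul_one]

theorem pi_mem (x y z : ℂ) (h : pt x y z = 1) :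
    ¬ (1 + x * z = -(rho (1 + y * z) : ℂ) ∧ 1 + y * z = (‖1 + y * z‖ : ℂ)) := by
  rintro ⟨h1, h2⟩
  have hf := S_ff x y z h
  have h3 : ff (1 + x * z) (1 + y * z) = 0 := by
    unfold ff
    rw [h1]
    have h4 : ((rho (1 + y * z) : ℝ) : ℂ) ^ 2 = ((‖1 + y * z‖ : ℝ) : ℂ) ^ 3 := by
      exact_mod_cast rho_sq (1 + y * z)
    rw [neg_sq, h4, ← h2]; ring
  have hz : z = 0 := by rw [← hf, h3]
  rw [hz] at h1
  simp [rho] at h1
  have := congrArg Complex.re h1
  simp at this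
  norm_num at this

def pimap : C(S, U) where
  toFun v := ⟨(1 + v.1.1 * v.1.2.2, 1 + v.1.2.1 * v.1.2.2), pi_mem _ _ _ v.2⟩
  continuous_toFun := by
    refine Continuous.subtype_mk ?_ _
    fun_prop

/-! ### The homotopy -/

def knu (s : ℝ) (x y z : ℂ) : ℂ :=
  ((1 - s : ℝ) : ℂ) * (sig (1 + x * z) (1 + y * z) * (x - y))

def kmu (s : ℝ) (x y z : ℂ) : ℂ := 1 - knu s x y z * z

def kx (s : ℝ) (x y z : ℂ) : ℂ :=
  (x - knu s x y z * (kmu s x y z ^ 2 + kmu s x y z + 1) * (1 + x * z)) / kmu s x y z ^ 6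

def ky (s : ℝ) (x y z : ℂ) : ℂ :=
  (y - knu s x y z * (kmu s x y z + 1) * (1 + y * z)) / kmu s x y z ^ 6

def kz (s : ℝ) (x y z : ℂ) : ℂ := kmu s x y z ^ 6 * z

theorem S_DD (x y z : ℂ) (h : pt x y z = 1) : 0 < DD (1 + x * z) (1 + y * z) :=
  DD_pos _ _ (pi_mem x y z h)

theorem kmu_ne (s : ℝ) (hs0 : 0 ≤ s) (hs1 : s ≤ 1) (x y z : ℂ) (h : pt x y z = 1) :
    kmu s x y z ≠ 0 := by
  have h1 := mu_ne_zero (1 + x * z) (1 + y * z) (S_DD x y z h) (1 - s) (by linarith) (by linarith)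
  intro h2
  apply h1
  rw [← h2]
  unfold kmu knu
  ring

theorem k_mem (s : ℝ) (hs0 : 0 ≤ s) (hs1 : s ≤ 1) (x y z : ℂ) (h : pt x y z = 1) :
    pt (kx s x y z) (ky s x y z) (kz s x y z) = 1 := by
  have hmu := kmu_ne s hs0 hs1 x y z h
  by_cases hz : z = 0
  · subst hz
    have e1 : kmu s x y 0 = 1 := by unfold kmu; ring
    have e2 : kz s x y 0 = 0 := by unfold kz; ring
    unfold pt
    rw [e2]
    unfold kx ky
    rw [e1]
    unfold pt at h
    linear_combination h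
  · have hz' : kz s x y z ≠ 0 := mul_ne_zero (pow_ne_zero _ hmu) hz
    apply mul_left_cancel₀ hz'
    rw [z_mul_pt]
    have e1 : kx s x y z * kz s x y z
        = (x - knu s x y z * (kmu s x y z ^ 2 + kmu s x y z + 1) * (1 + x * z)) * z := by
      unfold kx kz; field_simp
    have e2 : ky s x y z * kz s x y z
        = (y - knu s x y z * (kmu s x y z + 1) * (1 + y * z)) * z := by
      unfold ky kz; field_simp
    have e3 : knu s x y z * z = 1 - kmu s x y z := by unfold kmu; ring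
    have e4 : 1 + kx s x y z * kz s x y z = kmu s x y z ^ 3 * (1 + x * z) := by
      rw [e1]
      linear_combination (-((kmu s x y z ^ 2 + kmu s x y z + 1) * (1 + x * z))) * e3
    have e5 : 1 + ky s x y z * kz s x y z = kmu s x y z ^ 2 * (1 + y * z) := by
      rw [e2]
      linear_combination (-((kmu s x y z + 1) * (1 + y * z))) * e3
    rw [e4, e5]
    have hf := S_ff x y z h
    unfold ff at hf
    unfold kz
    linear_combination (kmu s x y z ^ 6) * hf

theorem k_one (x y z : ℂ) : kx 1 x y z = x ∧ ky 1 x y z = y ∧ kz 1 x y z = z := by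
  have e1 : knu 1 x y z = 0 := by unfold knu; simp
  have e2 : kmu 1 x y z = 1 := by unfold kmu; rw [e1]; ring
  unfold kx ky kz
  rw [e1, e2]
  refine ⟨by ring, by ring, by ring⟩

theorem k_zero (x y z : ℂ) (h : pt x y z = 1) :
    kx 0 x y z = gA (1 + x * z) (1 + y * z) / mu (1 + x * z) (1 + y * z) ^ 6 ∧
    ky 0 x y z = gB (1 + x * z) (1 + y * z) / mu (1 + x * z) (1 + y * z) ^ 6 ∧
    kz 0 x y z = mu (1 + x * z) (1 + y * z) ^ 6 * ff (1 + x * z) (1 + y * z) := by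
  have hD := S_DD x y z h
  have hmu : kmu 0 x y z = mu (1 + x * z) (1 + y * z) := by
    rw [mu_eq _ _ hD]
    unfold kmu knu
    push_cast
    ring
  have hf := S_ff x y z h
  by_cases hz : z = 0
  · subst hz
    unfold pt at h
    have hs : sig 1 1 = 1 := by
      unfold sig DD BB ff
      norm_num
    have hk : kap 1 1 = 0 := by
      unfold kap ff
      norm_num
    have ht : tt 1 1 = 0 := by unfold tt; rw [hk]; ring
    have hm : mu 1 1 = 1 := by unfold mu; rw [ht, hs]; ring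
    have hgA : gA 1 1 = -1 := by unfold gA; rw [ht, hs, hk]; ring
    have hgB : gB 1 1 = -1 := by unfold gB; rw [ht, hs, hk]; ring
    simp only [mul_zero, add_zero] at hmu hf ⊢
    have e1 : knu 0 x y 0 = x - y := by unfold knu; simp [hs]
    unfold kx ky kz
    rw [hmu, hm, hgA, hgB, hf, e1]
    refine ⟨?_, ?_, ?_⟩
    · linear_combination (-1 : ℂ) * h
    · linear_combination (-1 : ℂ) * h
    · ring
  · have hA := gA_mul _ _ hD
    have hB := gB_mul _ _ hD
    rw [hf] at hA hB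
    have hmu0 : mu (1 + x * z) (1 + y * z) ≠ 0 := mu_ne _ _ hD
    have e3 : knu 0 x y z * z = 1 - kmu 0 x y z := by unfold kmu; ring
    refine ⟨?_, ?_, ?_⟩
    · unfold kx
      rw [hmu]
      rw [hmu] at e3
      congr 1
      apply mul_right_cancel₀ hz
      rw [hA]
      linear_combination (-((mu (1 + x * z) (1 + y * z) ^ 2 + mu (1 + x * z) (1 + y * z) + 1)
        * (1 + x * z))) * e3
    · unfold ky
      rw [hmu]
      rw [hmu] at e3
      congr 1
      apply mul_right_cancel₀ hz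
      rw [hB]
      linear_combination (-((mu (1 + x * z) (1 + y * z) + 1)
        * (1 + y * z))) * e3
    · unfold kz
      rw [hmu, hf]

theorem homotopic_g_pi : (gmap.comp pimap).Homotopic (ContinuousMap.id S) := by
  refine homotopic_of _ _ (fun p => ⟨(kx p.1 p.2.1.1 p.2.1.2.1 p.2.1.2.2,
    ky p.1 p.2.1.1 p.2.1.2.1 p.2.1.2.2, kz p.1 p.2.1.1 p.2.1.2.1 p.2.1.2.2),
    k_mem p.1 p.1.2.1 p.1.2.2 _ _ _ p.2.2⟩) ?_ ?_ ?_
  · refine Continuous.subtype_mk ?_ _
    have hDD : Continuous (fun v : S => DD (1 + v.1.1 * v.1.2.2) (1 + v.1.2.1 * v.1.2.2)) := by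
      unfold DD ff BB; fun_prop
    have hDDC : Continuous (fun v : S =>
        (DD (1 + v.1.1 * v.1.2.2) (1 + v.1.2.1 * v.1.2.2) : ℂ)) := by fun_prop
    have hDD0 : ∀ v : S, (DD (1 + v.1.1 * v.1.2.2) (1 + v.1.2.1 * v.1.2.2) : ℂ) ≠ 0 :=
      fun v => by exact_mod_cast (S_DD _ _ _ v.2).ne'
    have hsig : Continuous (fun v : S => sig (1 + v.1.1 * v.1.2.2) (1 + v.1.2.1 * v.1.2.2)) := by
      unfold sig BB; exact Continuous.div (by fun_prop) hDDC hDD0
    have hsig' : Continuous (fun p : I × S =>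
        sig (1 + p.2.1.1 * p.2.1.2.2) (1 + p.2.1.2.1 * p.2.1.2.2)) :=
      hsig.comp continuous_snd
    have hnu : Continuous (fun p : I × S => knu p.1 p.2.1.1 p.2.1.2.1 p.2.1.2.2) := by
      unfold knu; fun_prop
    have hmu : Continuous (fun p : I × S => kmu p.1 p.2.1.1 p.2.1.2.1 p.2.1.2.2) := by
      unfold kmu; fun_prop
    have hmu0 : ∀ p : I × S, kmu p.1 p.2.1.1 p.2.1.2.1 p.2.1.2.2 ^ 6 ≠ 0 :=
      fun p => pow_ne_zero _ (kmu_ne _ p.1.2.1 p.1.2.2 _ _ _ p.2.2)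
    have hx : Continuous (fun p : I × S => kx p.1 p.2.1.1 p.2.1.2.1 p.2.1.2.2) := by
      unfold kx; exact Continuous.div (by fun_prop) (hmu.pow 6) hmu0
    have hy : Continuous (fun p : I × S => ky p.1 p.2.1.1 p.2.1.2.1 p.2.1.2.2) := by
      unfold ky; exact Continuous.div (by fun_prop) (hmu.pow 6) hmu0
    have hz : Continuous (fun p : I × S => kz p.1 p.2.1.1 p.2.1.2.1 p.2.1.2.2) := by
      unfold kz; fun_prop
    exact hx.prodMk (hy.prodMk hz)
  · intro v
    apply Subtype.ext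
    obtain ⟨h1, h2, h3⟩ := k_zero v.1.1 v.1.2.1 v.1.2.2 v.2
    simp only [unitInterval, Set.Icc.coe_zero, gmap, pimap, ContinuousMap.comp_apply,
      ContinuousMap.coe_mk]
    rw [h1, h2, h3]
  · intro v
    apply Subtype.ext
    obtain ⟨h1, h2, h3⟩ := k_one v.1.1 v.1.2.1 v.1.2.2
    simp only [unitInterval, Set.Icc.coe_one, ContinuousMap.id_apply]
    rw [h1, h2, h3]

/-- The surface `S` is contractible. -/
theorem contractible_S : ContractibleSpace S := by
  rw [contractible_iff_id_nullhomotopic]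
  have h1 := contractible_U
  obtain ⟨u, hu⟩ := id_nullhomotopic U
  refine ⟨gmap u, ?_⟩
  have h2 : (gmap.comp pimap).Homotopic (ContinuousMap.const S (gmap u)) := by
    have h3 : (gmap.comp ((ContinuousMap.id U).comp pimap)).Homotopic
        (gmap.comp ((ContinuousMap.const U u).comp pimap)) :=
      .comp (.refl _) (.comp hu (.refl _))
    exact h3
  exact homotopic_g_pi.symm.trans h2

end

end Pool.Agent.Lib.AA2e78
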