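import Mathlib
import Pool.Agent.Lib.AA2e78.PartA2

/-!
Contractibility of the hypersurface
`w (w - 1) t + (w - 1) (pt x y z - 1) - w (x ^ 2 - y ^ 2 + z ^ 2 + Q u) = 0`.
-/

namespace Pool.Agent.Lib.AA2e78

noncomputable section

open Complex unitInterval Topology

/-- `pt` on triples -/
def ptt (Z : ℂ × ℂ × ℂ) : ℂ := pt Z.1 Z.2.1 Z.2.2

theorem continuous_ptt : Continuous ptt := continuous_pt

def act (l : ℂ) (Z : ℂ × ℂ × ℂ) : ℂ × ℂ × ℂ := (l * Z.1, l * Z.2.1, l⁻¹ * Z.2.2)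

theorem ptt_act (l : ℂ) (hl : l ≠ 0) (Z : ℂ × ℂ × ℂ) : ptt (act l Z) = l * ptt Z := by
  unfold ptt act pt
  field_simp

theorem act_act_inv (l : ℂ) (hl : l ≠ 0) (Z : ℂ × ℂ × ℂ) : act l (act l⁻¹ Z) = Z := by
  unfold act
  ext <;> field_simp

theorem ptt_act_inv (Z : ℂ × ℂ × ℂ) (h : ptt Z ≠ 0) : ptt (act (ptt Z)⁻¹ Z) = 1 := by
  rw [ptt_act _ (inv_ne_zero h), inv_mul_cancel₀ h]

/-- base point -/
def e0 : S := ⟨(-1, -1, 0), by norm_num [pt]⟩

theorem exists_C : Nonempty ((ContinuousMap.id S).Homotopy (ContinuousMap.const S e0)) := by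
  have h1 := contractible_S
  obtain ⟨v, hv⟩ := id_nullhomotopic S
  have h2 : (ContinuousMap.const S v).Homotopic (ContinuousMap.const S e0) := by
    have : Nonempty S := ⟨e0⟩
    rw [ContinuousMap.homotopic_const_iff]
    exact PathConnectedSpace.joined _ _
  exact hv.trans h2

def CC : (ContinuousMap.id S).Homotopy (ContinuousMap.const S e0) := exists_C.some

def mkS (Z : ℂ × ℂ × ℂ) (h : ptt Z = 1) : S := ⟨Z, h⟩

def Chat (s : I) (Z : ℂ × ℂ × ℂ) : ℂ × ℂ × ℂ :=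
  if h : ptt Z ≠ 0 then act (ptt Z) (CC (s, mkS (act (ptt Z)⁻¹ Z) (ptt_act_inv Z h))).1 else Z

theorem Chat_of_ne (s : I) (Z : ℂ × ℂ × ℂ) (h : ptt Z ≠ 0) :
    Chat s Z = act (ptt Z) (CC (s, mkS (act (ptt Z)⁻¹ Z) (ptt_act_inv Z h))).1 := by
  unfold Chat
  rw [dif_pos h]

theorem ptt_Chat (s : I) (Z : ℂ × ℂ × ℂ) : ptt (Chat s Z) = ptt Z := by
  unfold Chat
  split_ifs with h
  · rw [ptt_act _ h]
    have h2 : ptt (CC (s, mkS (act (ptt Z)⁻¹ Z) (ptt_act_inv Z h))).1 = 1 :=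
      (CC (s, mkS (act (ptt Z)⁻¹ Z) (ptt_act_inv Z h))).2
    rw [h2, mul_one]
  · rfl

theorem Chat_zero (Z : ℂ × ℂ × ℂ) : Chat 0 Z = Z := by
  unfold Chat
  split_ifs with h
  · rw [CC.apply_zero]
    exact act_act_inv _ h Z
  · rfl

theorem Chat_one (Z : ℂ × ℂ × ℂ) (h : ptt Z ≠ 0) : Chat 1 Z = (-ptt Z, -ptt Z, 0) := by
  unfold Chat
  rw [dif_pos h, CC.apply_one]
  simp [act, e0]

theorem continuousOn_Chat :
    ContinuousOn (fun p : I × (ℂ × ℂ × ℂ) => Chat p.1 p.2) {p | ptt p.2 ≠ 0} := by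
  rw [continuousOn_iff_continuous_domRestrict]
  have hz : Continuous (fun p : {p : I × (ℂ × ℂ × ℂ) | ptt p.2 ≠ 0} => ptt p.1.2) :=
    continuous_ptt.comp (by fun_prop)
  have h0 : ∀ p : {p : I × (ℂ × ℂ × ℂ) | ptt p.2 ≠ 0}, ptt p.1.2 ≠ 0 := fun p => p.2
  have hzi : Continuous (fun p : {p : I × (ℂ × ℂ × ℂ) | ptt p.2 ≠ 0} => (ptt p.1.2)⁻¹) :=
    hz.inv₀ h0
  have h1 : Continuous (fun p : {p : I × (ℂ × ℂ × ℂ) | ptt p.2 ≠ 0} =>
      act (ptt p.1.2)⁻¹ p.1.2) := by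
    unfold act
    have h2 : ∀ p : {p : I × (ℂ × ℂ × ℂ) | ptt p.2 ≠ 0}, (ptt p.1.2)⁻¹⁻¹ = ptt p.1.2 :=
      fun p => inv_inv _
    simp only [h2]
    fun_prop
  have h2 : Continuous (fun p : {p : I × (ℂ × ℂ × ℂ) | ptt p.2 ≠ 0} =>
      mkS (act (ptt p.1.2)⁻¹ p.1.2) (ptt_act_inv p.1.2 p.2)) := h1.subtype_mk _
  have h3 : Continuous (fun p : {p : I × (ℂ × ℂ × ℂ) | ptt p.2 ≠ 0} =>
      (CC (p.1.1, mkS (act (ptt p.1.2)⁻¹ p.1.2) (ptt_act_inv p.1.2 p.2))).1) := by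
    have h4 : Continuous (fun p : {p : I × (ℂ × ℂ × ℂ) | ptt p.2 ≠ 0} =>
      (p.1.1, mkS (act (ptt p.1.2)⁻¹ p.1.2) (ptt_act_inv p.1.2 p.2))) :=
      (by fun_prop : Continuous (fun p : {p : I × (ℂ × ℂ × ℂ) | ptt p.2 ≠ 0} =>
        p.1.1)).prodMk h2
    exact continuous_subtype_val.comp (CC.continuous.comp h4)
  have h4 : Continuous (fun p : {p : I × (ℂ × ℂ × ℂ) | ptt p.2 ≠ 0} =>
      act (ptt p.1.2) (CC (p.1.1, mkS (act (ptt p.1.2)⁻¹ p.1.2) (ptt_act_inv p.1.2 p.2))).1) := by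
    unfold act at h3 ⊢
    fun_prop
  refine h4.congr (fun p => ?_)
  simp only [Set.domRestrict_apply]
  exact (Chat_of_ne _ _ p.2).symm

/-- the width function -/
def dlt (Z : ℂ × ℂ × ℂ) : ℝ := ‖ptt Z‖ / (2 * (1 + ‖ptt Z‖))

theorem dlt_nonneg (Z : ℂ × ℂ × ℂ) : 0 ≤ dlt Z := by unfold dlt; positivity

theorem dlt_lt (Z : ℂ × ℂ × ℂ) : dlt Z < 1 / 2 := by
  unfold dlt
  rw [div_lt_iff₀ (by positivity)]
  linarith

theorem dlt_pos (Z : ℂ × ℂ × ℂ) (h : ptt Z ≠ 0) : 0 < dlt Z := by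
  unfold dlt
  have : 0 < ‖ptt Z‖ := norm_pos_iff.mpr h
  positivity

theorem dlt_zero (Z : ℂ × ℂ × ℂ) (h : ptt Z = 0) : dlt Z = 0 := by
  unfold dlt; simp [h]

theorem dlt_one (Z : ℂ × ℂ × ℂ) (h : ptt Z = 1) : dlt Z = 1 / 4 := by
  unfold dlt; rw [h]; norm_num

theorem continuous_dlt : Continuous dlt := by
  unfold dlt
  refine Continuous.div (by have := continuous_ptt; fun_prop)
    (by have := continuous_ptt; fun_prop) (fun Z => ?_)
  have : 0 < 2 * (1 + ‖ptt Z‖) := by positivity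
  exact this.ne'

def chi (w : ℂ) (Z : ℂ × ℂ × ℂ) : I :=
  Set.projIcc 0 1 zero_le_one (2 * (dlt Z - ‖w‖) / (dlt Z + ‖w‖))

theorem chi_zero (w : ℂ) (Z : ℂ × ℂ × ℂ) (h : dlt Z ≤ ‖w‖) : chi w Z = 0 := by
  unfold chi
  apply Set.projIcc_of_le_left
  have := dlt_nonneg Z
  exact div_nonpos_of_nonpos_of_nonneg (by linarith) (by positivity)

theorem chi_one (w : ℂ) (Z : ℂ × ℂ × ℂ) (h0 : 0 < dlt Z) (h : 3 * ‖w‖ ≤ dlt Z) :
    chi w Z = 1 := by
  unfold chi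
  apply Set.projIcc_of_right_le
  rw [le_div_iff₀ (by positivity)]
  linarith

set_option linter.unusedSectionVars false

variable {V : Type*} [TopologicalSpace V] [AddCommGroup V] [Module ℂ V] [ContinuousSMul ℂ V]

def qq (Q : V → ℂ) (Z : ℂ × ℂ × ℂ) (u : V) : ℂ := Z.1 ^ 2 - Z.2.1 ^ 2 + Z.2.2 ^ 2 + Q u

def PP (Q : V → ℂ) (w t : ℂ) (Z : ℂ × ℂ × ℂ) (u : V) : ℂ :=
  w * (w - 1) * t + (w - 1) * (ptt Z - 1) - w * qq Q Z u

/-- The hypersurface. -/
abbrev XX (Q : V → ℂ) := {v : ℂ × ℂ × (ℂ × ℂ × ℂ) × V // PP Q v.1 v.2.1 v.2.2.1 v.2.2.2 = 0}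

theorem zeta_of_w_zero (Q : V → ℂ) (w t : ℂ) (Z : ℂ × ℂ × ℂ) (u : V) (h : PP Q w t Z u = 0)
    (hw : w = 0) : ptt Z = 1 := by
  subst hw
  unfold PP at h
  linear_combination -h

theorem dlt_add_pos (Q : V → ℂ) (v : XX Q) : 0 < dlt v.1.2.2.1 + ‖v.1.1‖ := by
  by_cases hw : v.1.1 = 0
  · have := zeta_of_w_zero Q _ _ _ _ v.2 hw
    rw [dlt_one _ this]
    positivity
  · have h1 := dlt_nonneg v.1.2.2.1
    have h2 : 0 < ‖v.1.1‖ := norm_pos_iff.mpr hw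
    linarith

theorem continuous_chi (Q : V → ℂ) : Continuous (fun v : XX Q => chi v.1.1 v.1.2.2.1) := by
  unfold chi
  apply continuous_projIcc.comp
  have h1 := continuous_dlt
  refine Continuous.div (by fun_prop) (by fun_prop) (fun v => (dlt_add_pos Q v).ne')

/-! ### Stage 1 -/

def Z1 (Q : V → ℂ) (p : I × XX Q) : ℂ × ℂ × ℂ := Chat (p.1 * chi p.2.1.1 p.2.1.2.2.1) p.2.1.2.2.1

def u1 (Q : V → ℂ) (p : I × XX Q) : V :=
  (1 - ((p.1 * chi p.2.1.1 p.2.1.2.2.1 : I) : ℂ)) • p.2.1.2.2.2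

theorem contAt_aux {X : Type*} [TopologicalSpace X] {a b c d : X → ℂ} {p : X}
    (ha : ContinuousAt a p) (hb : ContinuousAt b p) (hc : ContinuousAt c p)
    (hd : ContinuousAt d p) (h0 : d p ≠ 0) :
    ContinuousAt (fun p => a p + (b p - c p) / d p) p :=
  ha.add ((hb.sub hc).div hd h0)

def t1 (Q : V → ℂ) (p : I × XX Q) : ℂ :=
  p.2.1.2.1 + (qq Q (Z1 Q p) (u1 Q p) - qq Q p.2.1.2.2.1 p.2.1.2.2.2) / (p.2.1.1 - 1)

theorem Z1_of_le (Q : V → ℂ) (p : I × XX Q) (h : dlt p.2.1.2.2.1 ≤ ‖p.2.1.1‖) :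
    Z1 Q p = p.2.1.2.2.1 := by
  unfold Z1
  rw [chi_zero _ _ h, mul_zero, Chat_zero]

theorem u1_of_le (Q : V → ℂ) (p : I × XX Q) (h : dlt p.2.1.2.2.1 ≤ ‖p.2.1.1‖) :
    u1 Q p = p.2.1.2.2.2 := by
  unfold u1
  rw [chi_zero _ _ h, mul_zero]
  simp

theorem t1_of_le (Q : V → ℂ) (p : I × XX Q) (h : dlt p.2.1.2.2.1 ≤ ‖p.2.1.1‖) :
    t1 Q p = p.2.1.2.1 := by
  unfold t1
  rw [Z1_of_le Q p h, u1_of_le Q p h]
  simp

theorem F1_mem (Q : V → ℂ) (p : I × XX Q) : PP Q p.2.1.1 (t1 Q p) (Z1 Q p) (u1 Q p) = 0 := by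
  have h := p.2.2
  by_cases hw : p.2.1.1 = 1
  · have h1 : dlt p.2.1.2.2.1 ≤ ‖p.2.1.1‖ := by
      rw [hw]
      have := dlt_lt p.2.1.2.2.1
      simp
      linarith
    rw [Z1_of_le Q p h1, u1_of_le Q p h1, t1_of_le Q p h1]
    exact h
  · have hw' : p.2.1.1 - 1 ≠ 0 := sub_ne_zero.mpr hw
    have h1 : ptt (Z1 Q p) = ptt p.2.1.2.2.1 := ptt_Chat _ _
    have h2 : (p.2.1.1 - 1) * t1 Q p = (p.2.1.1 - 1) * p.2.1.2.1 +
        (qq Q (Z1 Q p) (u1 Q p) - qq Q p.2.1.2.2.1 p.2.1.2.2.2) := by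
      unfold t1
      field_simp
    unfold PP at h ⊢
    rw [h1]
    linear_combination h + p.2.1.1 * h2

theorem continuous_Z1 (Q : V → ℂ) : Continuous (Z1 Q) := by
  rw [continuous_iff_continuousAt]
  intro p
  by_cases hz : ptt p.2.1.2.2.1 = 0
  · have hlt : dlt p.2.1.2.2.1 < ‖p.2.1.1‖ := by
      rw [dlt_zero _ hz]
      have hw : p.2.1.1 ≠ 0 := by
        intro hw
        have := zeta_of_w_zero Q _ _ _ _ p.2.2 hw
        rw [hz] at this
        exact zero_ne_one this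
      exact norm_pos_iff.mpr hw
    have hev : ∀ᶠ p' : I × XX Q in 𝓝 p, dlt p'.2.1.2.2.1 < ‖p'.2.1.1‖ := by
      have h1 : Continuous (fun p' : I × XX Q => dlt p'.2.1.2.2.1) :=
        continuous_dlt.comp (by fun_prop)
      have h2 : Continuous (fun p' : I × XX Q => ‖p'.2.1.1‖) := by fun_prop
      exact (isOpen_lt h1 h2).mem_nhds hlt
    have hc : ContinuousAt (fun p' : I × XX Q => p'.2.1.2.2.1) p := by fun_prop
    refine hc.congr ?_
    filter_upwards [hev] with p' hp'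
    exact (Z1_of_le Q p' hp'.le).symm
  · have h1 : ContinuousAt (fun p : I × (ℂ × ℂ × ℂ) => Chat p.1 p.2)
        (p.1 * chi p.2.1.1 p.2.1.2.2.1, p.2.1.2.2.1) := by
      apply continuousOn_Chat.continuousAt
      apply IsOpen.mem_nhds
      · exact isOpen_ne_fun (continuous_ptt.comp continuous_snd) continuous_const
      · exact hz
    have h2 : Continuous (fun p : I × XX Q =>
        (p.1 * chi p.2.1.1 p.2.1.2.2.1, p.2.1.2.2.1)) := by
      have h3 : Continuous (fun p : I × XX Q => chi p.2.1.1 p.2.1.2.2.1) :=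
        (continuous_chi Q).comp continuous_snd
      exact (continuous_fst.mul h3).prodMk (by fun_prop)
    exact ContinuousAt.comp (f := fun p : I × XX Q =>
        (p.1 * chi p.2.1.1 p.2.1.2.2.1, p.2.1.2.2.1)) h1 h2.continuousAt

theorem continuous_u1 (Q : V → ℂ) : Continuous (u1 Q) := by
  unfold u1
  have h3 : Continuous (fun p : I × XX Q => chi p.2.1.1 p.2.1.2.2.1) :=
    (continuous_chi Q).comp continuous_snd
  have h4 : Continuous (fun p : I × XX Q => p.1 * chi p.2.1.1 p.2.1.2.2.1) :=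
    continuous_fst.mul h3
  have h5 : Continuous (fun p : I × XX Q =>
      (1 - ((p.1 * chi p.2.1.1 p.2.1.2.2.1 : I) : ℂ))) := by
    exact continuous_const.sub (Complex.continuous_ofReal.comp
      (continuous_subtype_val.comp h4))
  exact h5.smul (by fun_prop)

theorem continuous_qq {X : Type*} [TopologicalSpace X] (Q : V → ℂ) (hQc : Continuous Q)
    {f : X → ℂ × ℂ × ℂ} {g : X → V} (hf : Continuous f) (hg : Continuous g) :
    Continuous (fun x => qq Q (f x) (g x)) := by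
  unfold qq; fun_prop

theorem continuous_t1 (Q : V → ℂ) (hQc : Continuous Q) : Continuous (t1 Q) := by
  rw [continuous_iff_continuousAt]
  intro p
  by_cases hw : p.2.1.1 = 1
  · have hlt : dlt p.2.1.2.2.1 < ‖p.2.1.1‖ := by
      rw [hw]
      have := dlt_lt p.2.1.2.2.1
      simp
      linarith
    have hev : ∀ᶠ p' : I × XX Q in 𝓝 p, dlt p'.2.1.2.2.1 < ‖p'.2.1.1‖ := by
      have h1 : Continuous (fun p' : I × XX Q => dlt p'.2.1.2.2.1) :=
        continuous_dlt.comp (by fun_prop)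
      have h2 : Continuous (fun p' : I × XX Q => ‖p'.2.1.1‖) := by fun_prop
      exact (isOpen_lt h1 h2).mem_nhds hlt
    have hc : ContinuousAt (fun p' : I × XX Q => p'.2.1.2.1) p := by fun_prop
    refine hc.congr ?_
    filter_upwards [hev] with p' hp'
    exact (t1_of_le Q p' hp'.le).symm
  · have hw' : p.2.1.1 - 1 ≠ 0 := sub_ne_zero.mpr hw
    unfold t1
    have h1 := continuous_Z1 Q
    have h2 := continuous_u1 Q
    have h3 : Continuous (fun p : I × XX Q => qq Q (Z1 Q p) (u1 Q p)) :=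
      continuous_qq Q hQc h1 h2
    have h41 : Continuous (fun p : I × XX Q => p.2.1.2.2.1) := by fun_prop
    have h42 : Continuous (fun p : I × XX Q => p.2.1.2.2.2) := by fun_prop
    have h4 : Continuous (fun p : I × XX Q => qq Q p.2.1.2.2.1 p.2.1.2.2.2) :=
      continuous_qq Q hQc h41 h42
    have h5 : Continuous (fun p : I × XX Q => p.2.1.2.1) := by fun_prop
    have h6 : Continuous (fun p : I × XX Q => p.2.1.1 - 1) := by fun_prop
    exact contAt_aux h5.continuousAt h3.continuousAt h4.continuousAt h6.continuousAt hw'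

def F1 (Q : V → ℂ) (p : I × XX Q) : XX Q :=
  ⟨(p.2.1.1, t1 Q p, Z1 Q p, u1 Q p), F1_mem Q p⟩

theorem continuous_F1 (Q : V → ℂ) (hQc : Continuous Q) : Continuous (F1 Q) := by
  refine Continuous.subtype_mk ?_ _
  have h0 : Continuous (fun p : I × XX Q => p.2.1.1) := by fun_prop
  exact h0.prodMk ((continuous_t1 Q hQc).prodMk ((continuous_Z1 Q).prodMk (continuous_u1 Q)))

theorem F1_zero (Q : V → ℂ) (v : XX Q) : F1 Q (0, v) = v := by
  have h1 : Z1 Q (0, v) = v.1.2.2.1 := by unfold Z1; rw [zero_mul, Chat_zero]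
  have h2 : u1 Q (0, v) = v.1.2.2.2 := by unfold u1; rw [zero_mul]; simp
  have h3 : t1 Q (0, v) = v.1.2.1 := by unfold t1; rw [h1, h2]; simp
  apply Subtype.ext
  simp only [F1]
  rw [h1, h2, h3]

/-- The condition reached after stage 1. -/
def Good (Q : V → ℂ) (v : XX Q) : Prop :=
  3 * ‖v.1.1‖ ≤ dlt v.1.2.2.1 → v.1.2.2.1 = (-ptt v.1.2.2.1, -ptt v.1.2.2.1, 0) ∧ v.1.2.2.2 = 0

theorem ptt_ne_of_le (Q : V → ℂ) (v : XX Q) (h : 3 * ‖v.1.1‖ ≤ dlt v.1.2.2.1) :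
    ptt v.1.2.2.1 ≠ 0 := by
  intro hz
  rw [dlt_zero _ hz] at h
  have hw : v.1.1 = 0 := by
    have : ‖v.1.1‖ = 0 := le_antisymm (by linarith) (norm_nonneg _)
    exact norm_eq_zero.mp this
  have := zeta_of_w_zero Q _ _ _ _ v.2 hw
  rw [hz] at this
  exact zero_ne_one this

theorem good_F1 (Q : V → ℂ) (v : XX Q) : Good Q (F1 Q (1, v)) := by
  intro h
  have e1 : ptt (Z1 Q (1, v)) = ptt v.1.2.2.1 := ptt_Chat _ _
  have e2 : dlt (Z1 Q (1, v)) = dlt v.1.2.2.1 := by unfold dlt; rw [e1]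
  have h' : 3 * ‖v.1.1‖ ≤ dlt v.1.2.2.1 := by
    rw [← e2]; exact h
  have hne := ptt_ne_of_le Q v h'
  have hchi : chi v.1.1 v.1.2.2.1 = 1 := chi_one _ _ (dlt_pos _ hne) h'
  have e3 : Z1 Q (1, v) = (-ptt v.1.2.2.1, -ptt v.1.2.2.1, 0) := by
    unfold Z1
    simp only
    rw [hchi, mul_one, Chat_one _ hne]
  constructor
  · simp only [F1]
    rw [e1]
    exact e3
  · simp only [F1]
    unfold u1
    simp only
    rw [hchi]
    simp

/-! ### Stage 2 -/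

abbrev X1 (Q : V → ℂ) := {v : XX Q // Good Q v}

def phi (Q : V → ℂ) (hQc : Continuous Q) : C(XX Q, X1 Q) where
  toFun v := ⟨F1 Q (1, v), good_F1 Q v⟩
  continuous_toFun := by
    refine Continuous.subtype_mk ?_ _
    exact (continuous_F1 Q hQc).comp (by fun_prop)

def inc (Q : V → ℂ) : C(X1 Q, XX Q) := ⟨fun v => v.1, continuous_subtype_val⟩

def Z2 (s : ℝ) (w : ℂ) (Z : ℂ × ℂ × ℂ) : ℂ × ℂ × ℂ :=
  ((1 - s) * Z.1 - s * (1 - w), (1 - s) * Z.2.1 - s * (1 - w), (1 - s) * Z.2.2)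

theorem ptt_diag (l : ℂ) : ptt (-l, -l, 0) = l := by unfold ptt pt; ring

def t2 (s : ℝ) (w t : ℂ) (Z : ℂ × ℂ × ℂ) : ℂ :=
  if w = 0 then (1 - s) * t + s else
    (1 - s) ^ 2 * (t + (ptt Z - 1) / w) + 2 * s * (1 - s) * (Z.1 - Z.2.1)
      - (ptt (Z2 s w Z) - 1) / w

theorem F2_mem (Q : V → ℂ) (hQ : ∀ (c : ℂ) (u : V), Q (c • u) = c ^ 2 * Q u) (s : ℝ)
    (v : X1 Q) : PP Q v.1.1.1 (t2 s v.1.1.1 v.1.1.2.1 v.1.1.2.2.1)
      (Z2 s v.1.1.1 v.1.1.2.2.1) ((1 - (s : ℂ)) • v.1.1.2.2.2) = 0 := by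
  obtain ⟨⟨⟨w, t, Z, u⟩, hv⟩, hg⟩ := v
  simp only at hv ⊢
  unfold Good at hg
  simp only at hg
  by_cases hw : w = 0
  · have hz := zeta_of_w_zero Q _ _ _ _ hv hw
    subst hw
    obtain ⟨h1, h2⟩ := hg (by rw [dlt_one _ hz]; simp)
    have e1 : Z2 s 0 Z = (-1, -1, 0) := by
      rw [h1, hz]
      unfold Z2
      ext <;> simp
    unfold PP
    rw [e1]
    have := ptt_diag 1
    rw [this]; ring
  · unfold PP t2
    rw [if_neg hw]
    have e2 : qq Q (Z2 s w Z) ((1 - (s : ℂ)) • u) = (1 - (s : ℂ)) ^ 2 * qq Q Z u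
        - 2 * s * (1 - s) * (1 - w) * (Z.1 - Z.2.1) := by
      unfold qq Z2
      rw [hQ]
      ring
    rw [e2]
    unfold PP at hv
    field_simp
    linear_combination ((1 - (s : ℂ)) ^ 2) * hv

/-- near `w = 0` the formula for `t2` simplifies -/
theorem t2_of_le (Q : V → ℂ) (hQ : ∀ (c : ℂ) (u : V), Q (c • u) = c ^ 2 * Q u) (s : ℝ) (v : X1 Q) (h : 3 * ‖v.1.1.1‖ ≤ dlt v.1.1.2.2.1) :
    t2 s v.1.1.1 v.1.1.2.1 v.1.1.2.2.1 = (1 - s) * v.1.1.2.1 + s := by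
  obtain ⟨⟨⟨w, t, Z, u⟩, hv⟩, hg⟩ := v
  simp only at hv h ⊢
  unfold Good at hg
  simp only at hg
  obtain ⟨h1, h2⟩ := hg h
  unfold t2
  split_ifs with hw
  · rfl
  · have hw1 : w ≠ 1 := by
      intro hw1
      rw [hw1] at h
      have := dlt_lt Z
      simp at h
      linarith
    have hw1' : w - 1 ≠ 0 := sub_ne_zero.mpr hw1
    set l := ptt Z with hl
    have e1 : Z2 s w Z = (-((1 - s) * l + s * (1 - w)), -((1 - s) * l + s * (1 - w)), 0) := by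
      rw [h1]
      unfold Z2
      ext <;> simp <;> ring
    have e2 : w * t + (l - 1) = 0 := by
      apply mul_left_cancel₀ hw1'
      unfold PP at hv
      have e4 : Q u = 0 := by
        have := hQ 0 0
        rw [h2]
        simpa using this
      have e3 : qq Q Z u = 0 := by
        unfold qq
        rw [h1, e4]
        simp
      rw [e3] at hv
      linear_combination hv
    have e5 : Z.1 - Z.2.1 = 0 := by rw [h1]; simp
    rw [e1, ptt_diag, e5]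
    field_simp
    linear_combination ((1 - (s : ℂ)) ^ 2 - (1 - (s : ℂ))) * e2

end

end Pool.Agent.Lib.AA2e78
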