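import Mathlib
import Pool.Agent.Lib.AA2e78.PartB

/-!
Stages 2 and 3 of the contraction.
-/

namespace Pool.Agent.Lib.AA2e78

noncomputable section

open Complex unitInterval Topology

set_option linter.unusedSectionVars false

variable {V : Type*} [TopologicalSpace V] [AddCommGroup V] [Module ℂ V] [ContinuousSMul ℂ V]

theorem continuous_t2 (Q : V → ℂ) (hQ : ∀ (c : ℂ) (u : V), Q (c • u) = c ^ 2 * Q u) :
    Continuous (fun p : I × X1 Q => t2 p.1 p.2.1.1.1 p.2.1.1.2.1 p.2.1.1.2.2.1) := by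
  rw [continuous_iff_continuousAt]
  intro p
  by_cases hw : p.2.1.1.1 = 0
  · have hz := zeta_of_w_zero Q _ _ _ _ p.2.1.2 hw
    have hlt : 3 * ‖p.2.1.1.1‖ < dlt p.2.1.1.2.2.1 := by
      rw [dlt_one _ hz, hw]; norm_num
    have hev : ∀ᶠ p' : I × X1 Q in 𝓝 p, 3 * ‖p'.2.1.1.1‖ < dlt p'.2.1.1.2.2.1 := by
      have h1 : Continuous (fun p' : I × X1 Q => dlt p'.2.1.1.2.2.1) :=
        continuous_dlt.comp (by fun_prop)
      have h2 : Continuous (fun p' : I × X1 Q => 3 * ‖p'.2.1.1.1‖) := by fun_prop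
      exact (isOpen_lt h2 h1).mem_nhds hlt
    have hc : ContinuousAt (fun p' : I × X1 Q => (1 - (p'.1 : ℂ)) * p'.2.1.1.2.1 + (p'.1 : ℂ)) p :=
      Continuous.continuousAt (by fun_prop)
    refine hc.congr ?_
    filter_upwards [hev] with p' hp'
    exact (t2_of_le Q hQ p'.1 p'.2 hp'.le).symm
  · have hev : ∀ᶠ p' : I × X1 Q in 𝓝 p, p'.2.1.1.1 ≠ 0 := by
      have h1 : Continuous (fun p' : I × X1 Q => p'.2.1.1.1) := by fun_prop
      exact (isOpen_ne_fun h1 continuous_const).mem_nhds hw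
    have hZ : Continuous (fun p' : I × X1 Q => p'.2.1.1.2.2.1) := by fun_prop
    have hp1 : Continuous (fun p' : I × X1 Q => ptt p'.2.1.1.2.2.1) :=
      continuous_ptt.comp hZ
    have hw1 : Continuous (fun p' : I × X1 Q => p'.2.1.1.1) := by fun_prop
    have hZ2 : Continuous (fun p' : I × X1 Q => Z2 p'.1 p'.2.1.1.1 p'.2.1.1.2.2.1) := by
      unfold Z2; fun_prop
    have hp2 : Continuous (fun p' : I × X1 Q => ptt (Z2 p'.1 p'.2.1.1.1 p'.2.1.1.2.2.1)) :=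
      continuous_ptt.comp hZ2
    have hs : Continuous (fun p' : I × X1 Q => (1 - (p'.1 : ℂ))) := by fun_prop
    have hs0 : Continuous (fun p' : I × X1 Q => (p'.1 : ℂ)) := by fun_prop
    have ht : Continuous (fun p' : I × X1 Q => p'.2.1.1.2.1) := by fun_prop
    have hxy : Continuous (fun p' : I × X1 Q => p'.2.1.1.2.2.1.1 - p'.2.1.1.2.2.1.2.1) := by
      fun_prop
    have hc1 : ContinuousAt (fun p' : I × X1 Q =>
        (1 - (p'.1 : ℂ)) ^ 2 * (p'.2.1.1.2.1 + (ptt p'.2.1.1.2.2.1 - 1) / p'.2.1.1.1)) p :=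
      (hs.pow 2).continuousAt.mul (ht.continuousAt.add
        ((hp1.sub continuous_const).continuousAt.div hw1.continuousAt hw))
    have hc2 : ContinuousAt (fun p' : I × X1 Q => 2 * (p'.1 : ℂ) * (1 - (p'.1 : ℂ)) *
        (p'.2.1.1.2.2.1.1 - p'.2.1.1.2.2.1.2.1)) p :=
      (((continuous_const.mul hs0).mul hs).mul hxy).continuousAt
    have hc3 : ContinuousAt (fun p' : I × X1 Q =>
        (ptt (Z2 p'.1 p'.2.1.1.1 p'.2.1.1.2.2.1) - 1) / p'.2.1.1.1) p :=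
      (hp2.sub continuous_const).continuousAt.div hw1.continuousAt hw
    have hc : ContinuousAt (fun p' : I × X1 Q =>
        (1 - (p'.1 : ℂ)) ^ 2 * (p'.2.1.1.2.1 + (ptt p'.2.1.1.2.2.1 - 1) / p'.2.1.1.1)
        + 2 * (p'.1 : ℂ) * (1 - (p'.1 : ℂ)) * (p'.2.1.1.2.2.1.1 - p'.2.1.1.2.2.1.2.1)
        - (ptt (Z2 p'.1 p'.2.1.1.1 p'.2.1.1.2.2.1) - 1) / p'.2.1.1.1) p :=
      (hc1.add hc2).sub hc3
    refine hc.congr ?_
    filter_upwards [hev] with p' hp'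
    unfold t2
    rw [if_neg hp']

def F2 (Q : V → ℂ) (hQ : ∀ (c : ℂ) (u : V), Q (c • u) = c ^ 2 * Q u) (p : I × X1 Q) : XX Q :=
  ⟨(p.2.1.1.1, t2 p.1 p.2.1.1.1 p.2.1.1.2.1 p.2.1.1.2.2.1, Z2 p.1 p.2.1.1.1 p.2.1.1.2.2.1,
    (1 - ((p.1 : ℝ) : ℂ)) • p.2.1.1.2.2.2), F2_mem Q hQ p.1 p.2⟩

theorem continuous_F2 (Q : V → ℂ) (hQ : ∀ (c : ℂ) (u : V), Q (c • u) = c ^ 2 * Q u) :
    Continuous (F2 Q hQ) := by
  refine Continuous.subtype_mk ?_ _
  have h0 : Continuous (fun p : I × X1 Q => p.2.1.1.1) := by fun_prop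
  have hZ2 : Continuous (fun p' : I × X1 Q => Z2 p'.1 p'.2.1.1.1 p'.2.1.1.2.2.1) := by
    unfold Z2; fun_prop
  have hs : Continuous (fun p' : I × X1 Q => (1 - ((p'.1 : ℝ) : ℂ))) := by fun_prop
  have hu : Continuous (fun p' : I × X1 Q => p'.2.1.1.2.2.2) := by fun_prop
  exact h0.prodMk ((continuous_t2 Q hQ).prodMk (hZ2.prodMk (hs.smul hu)))

theorem gam_mem (Q : V → ℂ) (hQ : ∀ (c : ℂ) (u : V), Q (c • u) = c ^ 2 * Q u) (w : ℂ) :
    PP Q w 1 (-(1 - w), -(1 - w), 0) (0 : V) = 0 := by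
  have h0 : Q 0 = 0 := by
    have := hQ 0 0
    simpa using this
  unfold PP qq
  rw [ptt_diag, h0]
  simp only
  ring

/-- The curve to which everything retracts. -/
def gam (Q : V → ℂ) (hQ : ∀ (c : ℂ) (u : V), Q (c • u) = c ^ 2 * Q u) : C(ℂ, XX Q) where
  toFun w := ⟨(w, 1, (-(1 - w), -(1 - w), 0), 0), gam_mem Q hQ w⟩
  continuous_toFun := by
    refine Continuous.subtype_mk ?_ _
    fun_prop

def wmap (Q : V → ℂ) : C(X1 Q, ℂ) := ⟨fun v => v.1.1.1, by fun_prop⟩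

theorem F2_zero (Q : V → ℂ) (hQ : ∀ (c : ℂ) (u : V), Q (c • u) = c ^ 2 * Q u) (v : X1 Q) :
    F2 Q hQ (0, v) = inc Q v := by
  apply Subtype.ext
  have e1 : Z2 ((0 : I) : ℝ) v.1.1.1 v.1.1.2.2.1 = v.1.1.2.2.1 := by
    unfold Z2
    ext <;> simp
  have e2 : t2 ((0 : I) : ℝ) v.1.1.1 v.1.1.2.1 v.1.1.2.2.1 = v.1.1.2.1 := by
    unfold t2
    rw [e1]
    split_ifs with h
    · simp
    · simp only [Set.Icc.coe_zero, Complex.ofReal_zero]
      ring
  simp only [F2]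
  rw [e1, e2]
  simp [inc]

theorem F2_one (Q : V → ℂ) (hQ : ∀ (c : ℂ) (u : V), Q (c • u) = c ^ 2 * Q u) (v : X1 Q) :
    F2 Q hQ (1, v) = gam Q hQ (wmap Q v) := by
  apply Subtype.ext
  have e1 : Z2 ((1 : I) : ℝ) v.1.1.1 v.1.1.2.2.1 = (-(1 - v.1.1.1), -(1 - v.1.1.1), 0) := by
    unfold Z2
    ext <;> simp
  have e2 : t2 ((1 : I) : ℝ) v.1.1.1 v.1.1.2.1 v.1.1.2.2.1 = 1 := by
    unfold t2
    rw [e1, ptt_diag]
    split_ifs with h
    · simp
    · simp only [Set.Icc.coe_one, Complex.ofReal_one]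
      field_simp
      ring
  simp only [F2]
  rw [e1, e2]
  simp [gam, wmap]

theorem contractible_XX (Q : V → ℂ) (hQc : Continuous Q)
    (hQ : ∀ (c : ℂ) (u : V), Q (c • u) = c ^ 2 * Q u) : ContractibleSpace (XX Q) := by
  rw [contractible_iff_id_nullhomotopic]
  refine ⟨gam Q hQ 0, ?_⟩
  have h1 : (ContinuousMap.id (XX Q)).Homotopic ((inc Q).comp (phi Q hQc)) :=
    homotopic_of _ _ (F1 Q) (continuous_F1 Q hQc) (F1_zero Q) (fun _ => rfl)
  have h2 : (inc Q).Homotopic ((gam Q hQ).comp (wmap Q)) :=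
    homotopic_of _ _ (F2 Q hQ) (continuous_F2 Q hQ) (F2_zero Q hQ) (F2_one Q hQ)
  have h3 : ((inc Q).comp (phi Q hQc)).Homotopic (((gam Q hQ).comp (wmap Q)).comp (phi Q hQc)) :=
    .comp h2 (.refl _)
  have h4 : (ContinuousMap.id ℂ).Homotopic (ContinuousMap.const ℂ 0) :=
    homotopic_of _ _ (fun p => (1 - (p.1 : ℂ)) * p.2) (by fun_prop) (by simp) (by simp)
  have h5 : (((gam Q hQ).comp (wmap Q)).comp (phi Q hQc)).Homotopic
      (ContinuousMap.const (XX Q) (gam Q hQ 0)) := by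
    have h6 : ((gam Q hQ).comp ((ContinuousMap.id ℂ).comp ((wmap Q).comp (phi Q hQc)))).Homotopic
        ((gam Q hQ).comp ((ContinuousMap.const ℂ 0).comp ((wmap Q).comp (phi Q hQc)))) :=
      .comp (.refl _) (.comp h4 (.refl _))
    exact h6
  exact (h1.trans h3).trans h5

end

end Pool.Agent.Lib.AA2e78
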