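import Mathlib
import Pool.Agent.Lib.AA2e78.Defs

/-!
The obstruction to quasihomogeneity: a critical point on another level set.
-/

namespace Pool.Agent.Lib.AA2e78

open MvPolynomial Topology

/-- chain rule for derivations of polynomial expressions -/
theorem chain_rule {σ : Type*} [Fintype σ] {A : Type*} [CommRing A] [Algebra ℂ A]
    (D : Derivation ℂ A A) (g : σ → A) (f : MvPolynomial σ ℂ) :
    D (aeval g f) = ∑ j, aeval g (pderiv j f) * D (g j) := by
  classical
  induction f using MvPolynomial.induction_on with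
  | C a => simp
  | add p q hp hq => simp [hp, hq, add_mul, Finset.sum_add_distrib]
  | mul_X p n hp =>
    simp only [map_mul, aeval_X, Derivation.leibniz, smul_eq_mul, hp, pderiv_X, map_add]
    have h1 : ∀ j, aeval g ((Pi.single j 1 : σ → MvPolynomial σ ℂ) n) =
        if n = j then (1 : A) else 0 := by
      intro j
      by_cases h : n = j
      · subst h; simp
      · rw [Pi.single_eq_of_ne h, if_neg h]; simp
    simp only [h1, add_mul, Finset.sum_add_distrib, Finset.mul_sum, mul_ite, mul_one, mul_zero,
      ite_mul, zero_mul, Finset.sum_ite_eq, Finset.mem_univ, if_true, mul_assoc]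

/-- A polynomial with a critical point on a nonzero level and a zero is not equivalent to a
quasihomogeneous polynomial. -/
theorem not_quasi {n : ℕ} (p : MvPolynomial (Fin n) ℂ) (c a : Fin n → ℂ)
    (hc : ∀ i, eval c (pderiv i p) = 0) (hcp : eval c p ≠ 0) (ha : eval a p = 0)
    (φ : MvPolynomial (Fin n) ℂ ≃ₐ[ℂ] MvPolynomial (Fin n) ℂ) : ¬ IsQuasihomogeneous (φ p) := by
  rintro ⟨w, d, hw, hq⟩
  -- evaluation of φ f
  have hev : ∀ (x : Fin n → ℂ) (f : MvPolynomial (Fin n) ℂ),
      eval x (φ f) = eval (fun i => eval x (φ (X i))) f := by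
    intro x f
    have h : ((aeval x : MvPolynomial (Fin n) ℂ →ₐ[ℂ] ℂ).comp φ.toAlgHom)
        = (aeval (fun i => eval x (φ (X i))) : MvPolynomial (Fin n) ℂ →ₐ[ℂ] ℂ) := by
      apply MvPolynomial.algHom_ext
      intro i
      simp [aeval_eq_eval]
    have h2 := DFunLike.congr_fun h f
    simpa [aeval_eq_eval] using h2
  -- inverse images of points
  have hinv : ∀ (y : Fin n → ℂ) (f : MvPolynomial (Fin n) ℂ),
      eval (fun i => eval y (φ.symm (X i))) (φ f) = eval y f := by
    intro y f
    have h : ((aeval (fun i => eval y (φ.symm (X i))) : MvPolynomial (Fin n) ℂ →ₐ[ℂ] ℂ))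
        = (aeval y : MvPolynomial (Fin n) ℂ →ₐ[ℂ] ℂ).comp φ.symm.toAlgHom := by
      apply MvPolynomial.algHom_ext
      intro i
      simp [aeval_eq_eval]
    have h2 := DFunLike.congr_fun h (φ f)
    simpa [aeval_eq_eval] using h2
  set c' : Fin n → ℂ := fun i => eval c (φ.symm (X i)) with hc'
  set a' : Fin n → ℂ := fun i => eval a (φ.symm (X i)) with ha'
  have hc1 : eval c' (φ p) = eval c p := hinv c p
  have ha1 : eval a' (φ p) = 0 := by rw [hinv a p, ha]
  -- one-variable polynomial
  let ell : (Fin n → ℂ) → Fin n → Polynomial ℂ :=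
    fun x i => Polynomial.C (x i) * Polynomial.X ^ w i
  let γ : (Fin n → ℂ) → Fin n → Polynomial ℂ := fun x j => aeval (ell x) (φ (X j))
  have hγ : ∀ x f, aeval (γ x) f = aeval (ell x) (φ f) := by
    intro x f
    have h : (aeval (γ x) : MvPolynomial (Fin n) ℂ →ₐ[ℂ] Polynomial ℂ)
        = (aeval (ell x)).comp φ.toAlgHom := by
      apply MvPolynomial.algHom_ext
      intro i
      simp [γ]
    have h2 := DFunLike.congr_fun h f
    simpa using h2
  have heval : ∀ (g : Fin n → Polynomial ℂ) (f : MvPolynomial (Fin n) ℂ) (t : ℂ),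
      Polynomial.eval t (aeval g f) = eval (fun i => Polynomial.eval t (g i)) f := by
    intro g f t
    have h : ((Polynomial.aeval t : Polynomial ℂ →ₐ[ℂ] ℂ).comp (aeval g))
        = (aeval (fun i => Polynomial.eval t (g i)) : MvPolynomial (Fin n) ℂ →ₐ[ℂ] ℂ) := by
      apply MvPolynomial.algHom_ext
      intro i
      simp [Polynomial.coe_aeval_eq_eval]
    have h2 := DFunLike.congr_fun h f
    simpa [aeval_eq_eval, Polynomial.coe_aeval_eq_eval] using h2
  -- the function `h_x (t) = (φ p) (t^w x)`
  let H : (Fin n → ℂ) → Polynomial ℂ := fun x => aeval (ell x) (φ p)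
  have hH : ∀ x t, Polynomial.eval t (H x) = eval (fun i => t ^ w i * x i) (φ p) := by
    intro x t
    simp only [H]
    rw [heval]
    have h1 : (fun i => Polynomial.eval t (ell x i)) = fun i => t ^ w i * x i := by
      funext i
      simp only [ell, Polynomial.eval_mul, Polynomial.eval_C, Polynomial.eval_pow,
        Polynomial.eval_X]
      ring
    rw [h1]
  have hH' : ∀ x t, t ≠ 0 → Polynomial.eval t (H x) = t ^ d * eval x (φ p) := by
    intro x t ht
    rw [hH, hq t ht x]
  -- derivative at 1 vanishes for x = c'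
  have hder : Polynomial.eval 1 (Polynomial.derivative (H c')) = 0 := by
    have h1 : H c' = aeval (γ c') p := (hγ c' p).symm
    rw [h1]
    have h2 := chain_rule (Polynomial.derivative' : Derivation ℂ (Polynomial ℂ) (Polynomial ℂ))
      (γ c') p
    rw [Polynomial.derivative'_apply] at h2
    rw [h2, Polynomial.eval_finsetSum]
    apply Finset.sum_eq_zero
    intro j _
    rw [Polynomial.eval_mul, heval]
    have h3 : (fun i => Polynomial.eval 1 (γ c' i)) = c := by
      funext i
      simp only [γ]
      rw [heval]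
      have h4 : (fun i => Polynomial.eval 1 (ell c' i)) = c' := by
        funext i; simp [ell]
      rw [h4, hinv]
      simp
    rw [h3, hc j, zero_mul]
  have hd : d = 0 := by
    have h1 : HasDerivAt (fun t : ℂ => t ^ d * eval c' (φ p))
        ((d : ℂ) * 1 ^ (d - 1) * eval c' (φ p)) 1 :=
      (hasDerivAt_zpow d (1 : ℂ) (Or.inl one_ne_zero)).mul_const _
    have h2 : HasDerivAt (fun t : ℂ => Polynomial.eval t (H c'))
        (Polynomial.eval 1 (Polynomial.derivative (H c'))) 1 := (H c').hasDerivAt 1
    have h3 : (fun t : ℂ => Polynomial.eval t (H c')) =ᶠ[𝓝 1]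
        (fun t : ℂ => t ^ d * eval c' (φ p)) := by
      have : {t : ℂ | t ≠ 0} ∈ 𝓝 (1 : ℂ) := isOpen_ne.mem_nhds one_ne_zero
      filter_upwards [this] with t ht
      exact hH' c' t ht
    have h4 := (h1.congr_of_eventuallyEq h3).unique h2
    rw [hder, hc1] at h4
    simp only [one_zpow, mul_one] at h4
    rcases mul_eq_zero.mp h4 with h5 | h5
    · exact_mod_cast h5
    · exact absurd h5 hcp
  subst hd
  -- now `φ p` is constant
  have hconst : ∀ x, eval x (φ p) = eval 0 (φ p) := by
    intro x
    have h1 : H x = Polynomial.C (eval x (φ p)) := by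
      apply Polynomial.eq_of_infinite_eval_eq
      apply Set.Infinite.mono (s := {t : ℂ | t ≠ 0})
      · intro t ht
        simp only [Set.mem_ofPred_eq] at ht ⊢
        rw [hH' x t ht]; simp
      · have : ({0} : Set ℂ)ᶜ.Infinite := Set.Finite.infinite_compl (Set.finite_singleton 0)
        exact this
    have h2 := hH x 0
    rw [h1] at h2
    simp only [Polynomial.eval_C] at h2
    have h3 : (fun i => (0 : ℂ) ^ w i * x i) = 0 := by
      funext i
      simp [(hw i).ne']
    rw [h2, h3]
  apply hcp
  rw [← hc1, hconst c', ← hconst a', ha1]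

end Pool.Agent.Lib.AA2e78
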