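import Mathlib
import Pool.Agent.Lib.AA2e78.Defs
import Pool.Agent.Lib.AA2e78.Quasi
import Pool.Agent.Lib.AA2e78.PartC

/-!
The polynomial in `k + 5` variables, its irreducibility, singular points, zero set.
-/

namespace Pool.Agent.Lib.AA2e78

open MvPolynomial Topology

noncomputable section

section

variable {k : ℕ}

def jt : Fin (k + 5) := 0
def jw : Fin (k + 5) := Fin.succ 0
def jx : Fin (k + 5) := Fin.succ (Fin.succ 0)
def jy : Fin (k + 5) := Fin.succ (Fin.succ (Fin.succ 0))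
def jz : Fin (k + 5) := Fin.succ (Fin.succ (Fin.succ (Fin.succ 0)))
def ju (j : Fin k) : Fin (k + 5) := j.succ.succ.succ.succ.succ

end

/-- The polynomial with abstract variables. -/
def Pgen {A : Type*} [CommRing A] {k : ℕ} (t w x y z : A) (u : Fin k → A) : A :=
  w * (w - 1) * t + (w - 1) * (2 * x - 3 * y + z * (x ^ 2 - 3 * y ^ 2) - z ^ 2 * y ^ 3 - 1)
    - w * (x ^ 2 - y ^ 2 + z ^ 2 + ∑ j, u j ^ 2)

/-- The polynomial. -/
def Pk (k : ℕ) : MvPolynomial (Fin (k + 5)) ℂ :=
  Pgen (X jt) (X jw) (X jx) (X jy) (X jz) (fun j => X (ju j))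

theorem map_Pgen {A B : Type*} [CommRing A] [CommRing B] {k : ℕ} (f : A →+* B) (t w x y z : A)
    (u : Fin k → A) : f (Pgen t w x y z u) = Pgen (f t) (f w) (f x) (f y) (f z)
      (fun j => f (u j)) := by
  unfold Pgen
  simp only [map_add, map_sub, map_mul, map_pow, map_sum, map_one, map_ofNat]

theorem eval_Pk (k : ℕ) (a : Fin (k + 5) → ℂ) :
    eval a (Pk k) = Pgen (a jt) (a jw) (a jx) (a jy) (a jz) (fun j => a (ju j)) := by
  unfold Pk
  rw [map_Pgen]
  simp

/-- Derivative of `Pgen` under a derivation. -/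
theorem der_Pgen {A : Type*} [CommRing A] [Algebra ℂ A] {k : ℕ} (D : Derivation ℂ A A)
    (t w x y z : A) (u : Fin k → A) :
    D (Pgen t w x y z u) =
      D t * (w * (w - 1)) +
      D w * ((2 * w - 1) * t + (2 * x - 3 * y + z * (x ^ 2 - 3 * y ^ 2) - z ^ 2 * y ^ 3 - 1)
        - (x ^ 2 - y ^ 2 + z ^ 2 + ∑ j, u j ^ 2)) +
      D x * ((w - 1) * (2 + 2 * x * z) - 2 * w * x) +
      D y * (-(3 * (w - 1) * (1 + y * z) ^ 2) + 2 * w * y) +
      D z * ((w - 1) * (x ^ 2 - 3 * y ^ 2 - 2 * z * y ^ 3) - 2 * w * z) -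
      ∑ j, D (u j) * (2 * w * u j) := by
  have h2 : D (2 : A) = 0 := by
    have := D.map_natCast 2
    simpa using this
  have h3 : D (3 : A) = 0 := by
    have := D.map_natCast 3
    simpa using this
  have hs : D (∑ j, u j ^ 2) = ∑ j, D (u j) * (2 * u j) := by
    rw [map_sum]
    apply Finset.sum_congr rfl
    intro j _
    rw [pow_two, Derivation.leibniz]
    simp only [smul_eq_mul]
    ring
  have hs2 : ∑ j, D (u j) * (2 * w * u j) = w * ∑ j, D (u j) * (2 * u j) := by
    rw [Finset.mul_sum]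
    apply Finset.sum_congr rfl
    intro j _
    ring
  unfold Pgen
  simp only [map_add, map_sub, Derivation.leibniz, Derivation.leibniz_pow, smul_eq_mul, hs, h2, h3,
    Derivation.map_one_eq_zero, nsmul_eq_mul]
  rw [hs2]
  push_cast
  ring

/-- Gradient formula. -/
theorem eval_pderiv_Pk (k : ℕ) (i : Fin (k + 5)) (a : Fin (k + 5) → ℂ) :
    eval a (pderiv i (Pk k)) =
      (if jt = i then 1 else 0) * (a jw * (a jw - 1)) +
      (if jw = i then 1 else 0) * ((2 * a jw - 1) * a jt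
        + (pt (a jx) (a jy) (a jz) - 1)
        - (a jx ^ 2 - a jy ^ 2 + a jz ^ 2 + ∑ j, a (ju j) ^ 2)) +
      (if jx = i then 1 else 0) * ((a jw - 1) * (2 + 2 * a jx * a jz) - 2 * a jw * a jx) +
      (if jy = i then 1 else 0) *
        (-(3 * (a jw - 1) * (1 + a jy * a jz) ^ 2) + 2 * a jw * a jy) +
      (if jz = i then 1 else 0) *
        ((a jw - 1) * (a jx ^ 2 - 3 * a jy ^ 2 - 2 * a jz * a jy ^ 3) - 2 * a jw * a jz) -
      ∑ j, (if ju j = i then 1 else 0) * (2 * a jw * a (ju j)) := by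
  classical
  have h1 : ∀ j, eval a (pderiv i (X j : MvPolynomial (Fin (k + 5)) ℂ)) =
      if j = i then (1 : ℂ) else 0 := by
    intro j
    rw [pderiv_X]
    by_cases h : j = i
    · subst h; simp
    · rw [Pi.single_eq_of_ne h, if_neg h]; simp
  unfold Pk
  rw [der_Pgen]
  simp only [map_add, map_sub, map_mul, map_pow, map_sum, map_one, map_ofNat, map_neg, h1, eval_X]
  unfold pt
  ring

end

end Pool.Agent.Lib.AA2e78
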