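import Mathlib
import Pool.Agent.Lib.AA2e78.Poly

/-!
Singular points, extra critical point, irreducibility, contractibility.
-/

namespace Pool.Agent.Lib.AA2e78

open MvPolynomial Topology

noncomputable section

set_option linter.unusedSimpArgs false

variable {k : ℕ}

theorem vjt : ((jt : Fin (k + 5)) : ℕ) = 0 := rfl
theorem vjw : ((jw : Fin (k + 5)) : ℕ) = 1 := rfl
theorem vjx : ((jx : Fin (k + 5)) : ℕ) = 2 := rfl
theorem vjy : ((jy : Fin (k + 5)) : ℕ) = 3 := rfl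
theorem vjz : ((jz : Fin (k + 5)) : ℕ) = 4 := rfl
theorem vju (j : Fin k) : ((ju j : Fin (k + 5)) : ℕ) = (j : ℕ) + 5 := rfl

theorem d_t (a : Fin (k + 5) → ℂ) : eval a (pderiv jt (Pk k)) = a jw * (a jw - 1) := by
  rw [eval_pderiv_Pk]
  simp [Fin.ext_iff, vjt, vjw, vjx, vjy, vjz, vju]

theorem d_w (a : Fin (k + 5) → ℂ) : eval a (pderiv jw (Pk k)) =
    ((2 * a jw - 1) * a jt + (pt (a jx) (a jy) (a jz) - 1)
        - (a jx ^ 2 - a jy ^ 2 + a jz ^ 2 + ∑ j, a (ju j) ^ 2)) := by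
  rw [eval_pderiv_Pk]
  simp [Fin.ext_iff, vjt, vjw, vjx, vjy, vjz, vju]

theorem d_x (a : Fin (k + 5) → ℂ) : eval a (pderiv jx (Pk k)) =
    (a jw - 1) * (2 + 2 * a jx * a jz) - 2 * a jw * a jx := by
  rw [eval_pderiv_Pk]
  simp [Fin.ext_iff, vjt, vjw, vjx, vjy, vjz, vju]

theorem d_y (a : Fin (k + 5) → ℂ) : eval a (pderiv jy (Pk k)) =
    -(3 * (a jw - 1) * (1 + a jy * a jz) ^ 2) + 2 * a jw * a jy := by
  rw [eval_pderiv_Pk]
  simp [Fin.ext_iff, vjt, vjw, vjx, vjy, vjz, vju]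

theorem d_z (a : Fin (k + 5) → ℂ) : eval a (pderiv jz (Pk k)) =
    (a jw - 1) * (a jx ^ 2 - 3 * a jy ^ 2 - 2 * a jz * a jy ^ 3) - 2 * a jw * a jz := by
  rw [eval_pderiv_Pk]
  simp [Fin.ext_iff, vjt, vjw, vjx, vjy, vjz, vju]

theorem d_u (a : Fin (k + 5) → ℂ) (j : Fin k) : eval a (pderiv (ju j) (Pk k)) =
    -(2 * a jw * a (ju j)) := by
  rw [eval_pderiv_Pk]
  simp [Fin.ext_iff, vjt, vjw, vjx, vjy, vjz, vju]
  simp [← Fin.ext_iff]

/-- a point with given coordinates -/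
def pnt (t w x y z : ℂ) (u : Fin k → ℂ) : Fin (k + 5) → ℂ :=
  Fin.cons t (Fin.cons w (Fin.cons x (Fin.cons y (Fin.cons z u))))

theorem pnt_t (t w x y z : ℂ) (u : Fin k → ℂ) : pnt t w x y z u jt = t := rfl
theorem pnt_w (t w x y z : ℂ) (u : Fin k → ℂ) : pnt t w x y z u jw = w := rfl
theorem pnt_x (t w x y z : ℂ) (u : Fin k → ℂ) : pnt t w x y z u jx = x := rfl
theorem pnt_y (t w x y z : ℂ) (u : Fin k → ℂ) : pnt t w x y z u jy = y := rfl
theorem pnt_z (t w x y z : ℂ) (u : Fin k → ℂ) : pnt t w x y z u jz = z := rfl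
theorem pnt_u (t w x y z : ℂ) (u : Fin k → ℂ) (j : Fin k) : pnt t w x y z u (ju j) = u j := rfl

theorem ext_pt {a b : Fin (k + 5) → ℂ} (ht : a jt = b jt) (hw : a jw = b jw) (hx : a jx = b jx)
    (hy : a jy = b jy) (hz : a jz = b jz) (hu : ∀ j, a (ju j) = b (ju j)) : a = b := by
  funext i
  refine Fin.cases ht (fun i => ?_) i
  refine Fin.cases hw (fun i => ?_) i
  refine Fin.cases hx (fun i => ?_) i
  refine Fin.cases hy (fun i => ?_) i
  refine Fin.cases hz (fun i => ?_) i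
  exact hu i

theorem ext_idx {C : Fin (k + 5) → Prop} (ht : C jt) (hw : C jw) (hx : C jx)
    (hy : C jy) (hz : C jz) (hu : ∀ j, C (ju j)) : ∀ i, C i := by
  intro i
  refine Fin.cases ht (fun i => ?_) i
  refine Fin.cases hw (fun i => ?_) i
  refine Fin.cases hx (fun i => ?_) i
  refine Fin.cases hy (fun i => ?_) i
  refine Fin.cases hz (fun i => ?_) i
  exact hu i

/-- The singular point of the hypersurface. -/
def a0 (k : ℕ) : Fin (k + 5) → ℂ := pnt 1 1 0 0 0 0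

/-- A critical point on another level. -/
def c0 (k : ℕ) : Fin (k + 5) → ℂ := pnt (-2) 0 1 1 (-1) 0

theorem eval_Pk' (a : Fin (k + 5) → ℂ) :
    eval a (Pk k) = a jw * (a jw - 1) * a jt + (a jw - 1) * (pt (a jx) (a jy) (a jz) - 1)
      - a jw * (a jx ^ 2 - a jy ^ 2 + a jz ^ 2 + ∑ j, a (ju j) ^ 2) := by
  rw [eval_Pk]
  unfold Pgen pt
  ring

theorem crit_a0 : ∀ i, eval (a0 k) (pderiv i (Pk k)) = 0 := by
  apply ext_idx
  · rw [d_t]; simp [a0, pnt_w]
  · rw [d_w]; simp [a0, pnt_w, pnt_t, pnt_x, pnt_y, pnt_z, pnt_u, pt]; norm_num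
  · rw [d_x]; simp [a0, pnt_w, pnt_t, pnt_x, pnt_y, pnt_z, pnt_u, pt]
  · rw [d_y]; simp [a0, pnt_w, pnt_t, pnt_x, pnt_y, pnt_z, pnt_u, pt]
  · rw [d_z]; simp [a0, pnt_w, pnt_t, pnt_x, pnt_y, pnt_z, pnt_u, pt]
  · intro j; rw [d_u]; simp [a0, pnt_w, pnt_t, pnt_x, pnt_y, pnt_z, pnt_u, pt]

theorem eval_a0 : eval (a0 k) (Pk k) = 0 := by
  rw [eval_Pk']
  simp [a0, pnt_w, pnt_t, pnt_x, pnt_y, pnt_z, pnt_u, pt]

theorem crit_c0 : ∀ i, eval (c0 k) (pderiv i (Pk k)) = 0 := by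
  apply ext_idx
  · rw [d_t]; simp [c0, pnt_w]
  · rw [d_w]; simp [c0, pnt_w, pnt_t, pnt_x, pnt_y, pnt_z, pnt_u, pt]; norm_num
  · rw [d_x]; simp [c0, pnt_w, pnt_t, pnt_x, pnt_y, pnt_z, pnt_u, pt]
  · rw [d_y]; simp [c0, pnt_w, pnt_t, pnt_x, pnt_y, pnt_z, pnt_u, pt]
  · rw [d_z]; simp [c0, pnt_w, pnt_t, pnt_x, pnt_y, pnt_z, pnt_u, pt]; norm_num
  · intro j; rw [d_u]; simp [c0, pnt_w, pnt_t, pnt_x, pnt_y, pnt_z, pnt_u, pt]

theorem eval_c0 : eval (c0 k) (Pk k) = 1 := by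
  rw [eval_Pk']
  simp [c0, pnt_w, pnt_t, pnt_x, pnt_y, pnt_z, pnt_u, pt]
  norm_num

theorem sing_a0 : IsSingularPoint (Pk k) (a0 k) := ⟨eval_a0, crit_a0⟩

theorem sing_unique (b : Fin (k + 5) → ℂ) (hb : IsSingularPoint (Pk k) b) : b = a0 k := by
  obtain ⟨h0, h⟩ := hb
  have ht := h jt
  have hw := h jw
  have hx := h jx
  have hy := h jy
  have hz := h jz
  have hu := fun j => h (ju j)
  rw [d_t] at ht
  rw [d_w] at hw
  rw [d_x] at hx
  rw [d_y] at hy
  rw [d_z] at hz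
  simp only [d_u] at hu
  rw [eval_Pk'] at h0
  rcases mul_eq_zero.mp ht with h1 | h1
  · -- w = 0
    exfalso
    rw [h1] at hx hy h0
    have e1 : 1 + b jx * b jz = 0 := by linear_combination (-1 / 2 : ℂ) * hx
    have e2 : (1 + b jy * b jz) ^ 2 = 0 := by linear_combination (1 / 3 : ℂ) * hy
    have e3 : 1 + b jy * b jz = 0 := pow_eq_zero_iff (two_ne_zero) |>.mp e2
    have e4 : pt (b jx) (b jy) (b jz) = 1 := by linear_combination -h0
    have e5 := z_mul_pt (b jx) (b jy) (b jz)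
    rw [e4, e1, e3] at e5
    have e6 : b jz = 0 := by linear_combination e5
    rw [e6] at e1
    norm_num at e1
  · -- w = 1
    have hw1 : b jw = 1 := by linear_combination h1
    rw [hw1] at hw hx hy hz hu
    have ex : b jx = 0 := by linear_combination (-1 / 2 : ℂ) * hx
    have ey : b jy = 0 := by linear_combination (1 / 2 : ℂ) * hy
    have ez : b jz = 0 := by linear_combination (-1 / 2 : ℂ) * hz
    have eu : ∀ j, b (ju j) = 0 := fun j => by linear_combination (-1 / 2 : ℂ) * hu j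
    have et : b jt = 1 := by
      rw [ex, ey, ez] at hw
      simp only [eu] at hw
      unfold pt at hw
      simp at hw
      linear_combination hw
    apply ext_pt
    · rw [et]; rfl
    · rw [hw1]; rfl
    · rw [ex]; rfl
    · rw [ey]; rfl
    · rw [ez]; rfl
    · intro j; rw [eu]; rfl

/-! ### Irreducibility -/

/-- coefficient `b` -/
def bb (k : ℕ) : MvPolynomial (Fin (k + 4)) ℂ :=
  (X 0 - 1) * (2 * X (Fin.succ 0) - 3 * X (Fin.succ (Fin.succ 0)) +
    X (Fin.succ (Fin.succ (Fin.succ 0))) * (X (Fin.succ 0) ^ 2 - 3 * X (Fin.succ (Fin.succ 0)) ^ 2)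
    - X (Fin.succ (Fin.succ (Fin.succ 0))) ^ 2 * X (Fin.succ (Fin.succ 0)) ^ 3 - 1)
    - X 0 * (X (Fin.succ 0) ^ 2 - X (Fin.succ (Fin.succ 0)) ^ 2
      + X (Fin.succ (Fin.succ (Fin.succ 0))) ^ 2 +
      ∑ j : Fin k, X (Fin.succ (Fin.succ (Fin.succ (Fin.succ j)))) ^ 2)

theorem finSucc_Pk : finSuccEquiv ℂ (k + 4) (Pk k) =
    Polynomial.C (X 0 * (X 0 - 1)) * Polynomial.X + Polynomial.C (bb k) := by
  have h : finSuccEquiv ℂ (k + 4) (Pk k) = Pgen (finSuccEquiv ℂ (k + 4) (X jt))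
      (finSuccEquiv ℂ (k + 4) (X jw)) (finSuccEquiv ℂ (k + 4) (X jx))
      (finSuccEquiv ℂ (k + 4) (X jy)) (finSuccEquiv ℂ (k + 4) (X jz))
      (fun j => finSuccEquiv ℂ (k + 4) (X (ju j))) := by
    unfold Pk
    exact map_Pgen (finSuccEquiv ℂ (k + 4)).toRingEquiv.toRingHom _ _ _ _ _ _
  rw [h]
  unfold jt jw jx jy jz ju
  simp only [finSuccEquiv_X_zero, finSuccEquiv_X_succ]
  unfold Pgen bb
  simp only [map_add, map_sub, map_mul, map_pow, map_sum, map_one, map_ofNat]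
  ring

theorem irreducible_X0 (n : ℕ) : Irreducible (X 0 : MvPolynomial (Fin (n + 1)) ℂ) := by
  rw [← MulEquiv.irreducible_iff (finSuccEquiv ℂ n)]
  rw [finSuccEquiv_X_zero]
  exact Polynomial.irreducible_X

theorem irreducible_X0_sub_one (n : ℕ) :
    Irreducible (X 0 - 1 : MvPolynomial (Fin (n + 1)) ℂ) := by
  rw [← MulEquiv.irreducible_iff (finSuccEquiv ℂ n)]
  rw [map_sub, finSuccEquiv_X_zero, map_one]
  have := Polynomial.irreducible_X_sub_C (1 : MvPolynomial (Fin n) ℂ)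
  simpa using this

theorem irreducible_Pk : Irreducible (Pk k) := by
  rw [← MulEquiv.irreducible_iff (finSuccEquiv ℂ (k + 4))]
  rw [finSucc_Pk]
  have h0 := irreducible_X0 (k + 3)
  have h1 := irreducible_X0_sub_one (k + 3)
  apply Polynomial.irreducible_C_mul_X_add_C
  · exact mul_ne_zero h0.ne_zero h1.ne_zero
  · apply IsRelPrime.mul_left
    · rw [h0.isRelPrime_iff_not_dvd]
      rintro ⟨r, hr⟩
      have := congrArg (eval (0 : Fin (k + 4) → ℂ)) hr
      simp [bb] at this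
    · rw [h1.isRelPrime_iff_not_dvd]
      rintro ⟨r, hr⟩
      obtain ⟨v, hv⟩ : ∃ v : Fin (k + 4) → ℂ, v = Fin.cons 1 (Fin.cons 1 (0 : Fin (k + 2) → ℂ)) :=
        ⟨_, rfl⟩
      have hv0 : v 0 = 1 := by rw [hv]; rfl
      have hv1 : v (Fin.succ 0) = 1 := by rw [hv]; rfl
      have hv2 : v (Fin.succ (Fin.succ 0)) = 0 := by rw [hv]; rfl
      have hv3 : v (Fin.succ (Fin.succ (Fin.succ 0))) = 0 := by rw [hv]; rfl
      have hv4 : ∀ j : Fin k, v (Fin.succ (Fin.succ (Fin.succ (Fin.succ j)))) = 0 := by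
        intro j; rw [hv]; rfl
      have := congrArg (eval v) hr
      unfold bb at this
      simp only [map_sub, map_add, map_mul, map_pow, map_sum, map_one, map_ofNat, eval_X,
        hv0, hv1, hv2, hv3, hv4] at this
      simp at this

/-! ### Contractibility -/

/-- sum of squares -/
def Qs (k : ℕ) (u : Fin k → ℂ) : ℂ := ∑ j, u j ^ 2

theorem contractible_Pk : ContractibleSpace (Hypersurface (Pk k)) := by
  have hQc : Continuous (Qs k) := by unfold Qs; fun_prop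
  have hQ : ∀ (c : ℂ) (u : Fin k → ℂ), Qs k (c • u) = c ^ 2 * Qs k u := by
    intro c u
    unfold Qs
    rw [Finset.mul_sum]
    apply Finset.sum_congr rfl
    intro j _
    simp [mul_pow]
  have h := contractible_XX (Qs k) hQc hQ
  have e : Hypersurface (Pk k) ≃ₜ XX (Qs k) :=
    { toFun := fun v => ⟨(v.1 jw, v.1 jt, (v.1 jx, v.1 jy, v.1 jz), fun j => v.1 (ju j)), by
        have h1 : eval v.1 (Pk k) = 0 := v.2
        rw [eval_Pk'] at h1
        unfold PP qq ptt Qs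
        exact h1⟩
      invFun := fun v => ⟨pnt v.1.2.1 v.1.1 v.1.2.2.1.1 v.1.2.2.1.2.1 v.1.2.2.1.2.2 v.1.2.2.2, by
        have h1 := v.2
        unfold PP qq ptt Qs at h1
        change eval _ (Pk k) = 0
        rw [eval_Pk']
        exact h1⟩
      left_inv := by
        intro v
        apply Subtype.ext
        apply ext_pt <;> intros <;> rfl
      right_inv := by
        intro v
        rfl
      continuous_toFun := by
        refine Continuous.subtype_mk ?_ _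
        have c : ∀ i, Continuous (fun v : Hypersurface (Pk k) => v.1 i) :=
          fun i => (continuous_apply i).comp continuous_subtype_val
        exact (c jw).prodMk ((c jt).prodMk (((c jx).prodMk ((c jy).prodMk (c jz))).prodMk
          (continuous_pi fun j => c (ju j))))
      continuous_invFun := by
        refine Continuous.subtype_mk ?_ _
        refine continuous_pi ?_
        apply ext_idx
        · simp only [pnt_t]; fun_prop
        · simp only [pnt_w]; fun_prop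
        · simp only [pnt_x]; fun_prop
        · simp only [pnt_y]; fun_prop
        · simp only [pnt_z]; fun_prop
        · intro j
          simp only [pnt_u]
          fun_prop }
  exact e.contractibleSpace

end

end Pool.Agent.Lib.AA2e78
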