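import Mathlib
import Pool.Agent.Lib.AA2e78.Poly2

/-!
The singular point is nondegenerate.
-/

namespace Pool.Agent.Lib.AA2e78

open MvPolynomial Topology

noncomputable section

set_option linter.unusedSimpArgs false

variable {k : ℕ}

/-- derivative of `f` at `a` in direction `v` -/
def dir {n : ℕ} (a v : Fin n → ℂ) (f : MvPolynomial (Fin n) ℂ) : ℂ :=
  ∑ i, v i * eval a (pderiv i f)

theorem dir_add {n : ℕ} (a v : Fin n → ℂ) (f g : MvPolynomial (Fin n) ℂ) :
    dir a v (f + g) = dir a v f + dir a v g := by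
  unfold dir
  rw [← Finset.sum_add_distrib]
  apply Finset.sum_congr rfl
  intro i _
  simp only [map_add]; ring

theorem dir_sub {n : ℕ} (a v : Fin n → ℂ) (f g : MvPolynomial (Fin n) ℂ) :
    dir a v (f - g) = dir a v f - dir a v g := by
  unfold dir
  rw [← Finset.sum_sub_distrib]
  apply Finset.sum_congr rfl
  intro i _
  simp only [map_sub]; ring

theorem dir_neg {n : ℕ} (a v : Fin n → ℂ) (f : MvPolynomial (Fin n) ℂ) :
    dir a v (-f) = -dir a v f := by
  unfold dir
  rw [← Finset.sum_neg_distrib]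
  apply Finset.sum_congr rfl
  intro i _
  simp only [map_neg]; ring

theorem dir_mul {n : ℕ} (a v : Fin n → ℂ) (f g : MvPolynomial (Fin n) ℂ) :
    dir a v (f * g) = dir a v f * eval a g + eval a f * dir a v g := by
  unfold dir
  rw [Finset.sum_mul, Finset.mul_sum, ← Finset.sum_add_distrib]
  apply Finset.sum_congr rfl
  intro i _
  rw [pderiv_mul]
  simp only [map_add, map_mul]; ring

theorem dir_pow_two {n : ℕ} (a v : Fin n → ℂ) (f : MvPolynomial (Fin n) ℂ) :
    dir a v (f ^ 2) = 2 * eval a f * dir a v f := by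
  rw [pow_two, dir_mul]; ring

theorem dir_pow_three {n : ℕ} (a v : Fin n → ℂ) (f : MvPolynomial (Fin n) ℂ) :
    dir a v (f ^ 3) = 3 * eval a f ^ 2 * dir a v f := by
  have : f ^ 3 = f * f * f := by ring
  rw [this, dir_mul, dir_mul, map_mul]; ring

theorem dir_C {n : ℕ} (a v : Fin n → ℂ) (c : ℂ) :
    dir a v (C c) = 0 := by
  unfold dir; simp

theorem dir_one {n : ℕ} (a v : Fin n → ℂ) : dir a v 1 = 0 := by
  have := dir_C a v 1
  simpa using this

theorem dir_ofNat {n : ℕ} (a v : Fin n → ℂ) (m : ℕ) [m.AtLeastTwo] :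
    dir a v (OfNat.ofNat m : MvPolynomial (Fin n) ℂ) = 0 := by
  have h := dir_C a v (OfNat.ofNat m : ℂ)
  rwa [map_ofNat] at h

theorem dir_X {n : ℕ} (a v : Fin n → ℂ) (j : Fin n) : dir a v (X j) = v j := by
  classical
  unfold dir
  have h1 : ∀ i, eval a (pderiv i (X j : MvPolynomial (Fin n) ℂ)) =
      if j = i then (1 : ℂ) else 0 := by
    intro i
    rw [pderiv_X]
    by_cases h : j = i
    · subst h; simp
    · rw [Pi.single_eq_of_ne h, if_neg h]; simp
  simp only [h1]
  simp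

theorem dir_sum {n m : ℕ} (a v : Fin n → ℂ) (f : Fin m → MvPolynomial (Fin n) ℂ) :
    dir a v (∑ j, f j) = ∑ j, dir a v (f j) := by
  unfold dir
  rw [Finset.sum_comm]
  apply Finset.sum_congr rfl
  intro i _
  rw [map_sum, map_sum, Finset.mul_sum]

theorem pderiv_Pk_poly (i : Fin (k + 5)) :
    pderiv i (Pk k) =
      (if jt = i then 1 else 0) * (X jw * (X jw - 1)) +
      (if jw = i then 1 else 0) * ((2 * X jw - 1) * X jt
        + (2 * X jx - 3 * X jy + X jz * (X jx ^ 2 - 3 * X jy ^ 2) - X jz ^ 2 * X jy ^ 3 - 1)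
        - (X jx ^ 2 - X jy ^ 2 + X jz ^ 2 + ∑ j, X (ju j) ^ 2)) +
      (if jx = i then 1 else 0) * ((X jw - 1) * (2 + 2 * X jx * X jz) - 2 * X jw * X jx) +
      (if jy = i then 1 else 0) *
        (-(3 * (X jw - 1) * (1 + X jy * X jz) ^ 2) + 2 * X jw * X jy) +
      (if jz = i then 1 else 0) *
        ((X jw - 1) * (X jx ^ 2 - 3 * X jy ^ 2 - 2 * X jz * X jy ^ 3) - 2 * X jw * X jz) -
      ∑ j, (if ju j = i then 1 else 0) * (2 * X jw * X (ju j)) := by
  classical
  have h1 : ∀ j, pderiv i (X j : MvPolynomial (Fin (k + 5)) ℂ) = if j = i then 1 else 0 := by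
    intro j
    rw [pderiv_X]
    by_cases h : j = i
    · subst h; simp
    · rw [Pi.single_eq_of_ne h, if_neg h]
  unfold Pk
  rw [der_Pgen]
  simp only [h1]

theorem p_t : pderiv jt (Pk k) = X jw * (X jw - 1) := by
  rw [pderiv_Pk_poly]
  simp [Fin.ext_iff, vjt, vjw, vjx, vjy, vjz, vju]

theorem p_w : pderiv jw (Pk k) = ((2 * X jw - 1) * X jt
        + (2 * X jx - 3 * X jy + X jz * (X jx ^ 2 - 3 * X jy ^ 2) - X jz ^ 2 * X jy ^ 3 - 1)
        - (X jx ^ 2 - X jy ^ 2 + X jz ^ 2 + ∑ j, X (ju j) ^ 2)) := by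
  rw [pderiv_Pk_poly]
  simp [Fin.ext_iff, vjt, vjw, vjx, vjy, vjz, vju]

theorem p_x : pderiv jx (Pk k) =
    (X jw - 1) * (2 + 2 * X jx * X jz) - 2 * X jw * X jx := by
  rw [pderiv_Pk_poly]
  simp [Fin.ext_iff, vjt, vjw, vjx, vjy, vjz, vju]

theorem p_y : pderiv jy (Pk k) =
    -(3 * (X jw - 1) * (1 + X jy * X jz) ^ 2) + 2 * X jw * X jy := by
  rw [pderiv_Pk_poly]
  simp [Fin.ext_iff, vjt, vjw, vjx, vjy, vjz, vju]

theorem p_z : pderiv jz (Pk k) =
    (X jw - 1) * (X jx ^ 2 - 3 * X jy ^ 2 - 2 * X jz * X jy ^ 3) - 2 * X jw * X jz := by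
  rw [pderiv_Pk_poly]
  simp [Fin.ext_iff, vjt, vjw, vjx, vjy, vjz, vju]

theorem p_u (j : Fin k) : pderiv (ju j) (Pk k) = -(2 * X jw * X (ju j)) := by
  rw [pderiv_Pk_poly]
  simp [Fin.ext_iff, vjt, vjw, vjx, vjy, vjz, vju]
  simp [← Fin.ext_iff]

theorem hess_Pk : (hessian (Pk k) (a0 k)).det ≠ 0 := by
  intro hdet
  obtain ⟨v, hv0, hv⟩ := Matrix.exists_vecMul_eq_zero_iff.mpr hdet
  apply hv0
  have hj : ∀ j, dir (a0 k) v (pderiv j (Pk k)) = 0 := by
    intro j
    have := congrFun hv j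
    exact this
  have e_w : v jw = 0 := by
    have := hj jt
    rw [p_t] at this
    simp only [dir_mul, dir_sub, dir_X, dir_one, eval_X, map_sub, map_one] at this
    simp [a0, pnt_w] at this
    exact this
  have e_x : v jx = 0 := by
    have := hj jx
    rw [p_x] at this
    simp only [dir_mul, dir_sub, dir_add, dir_X, dir_one, dir_ofNat, eval_X, map_sub, map_add,
      map_mul, map_one, map_ofNat, e_w] at this
    simp [a0, pnt_w, pnt_x, pnt_z] at this
    exact this
  have e_y : v jy = 0 := by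
    have := hj jy
    rw [p_y] at this
    simp only [dir_mul, dir_sub, dir_add, dir_neg, dir_pow_two, dir_X, dir_one, dir_ofNat, eval_X,
      map_sub, map_add, map_mul, map_one, map_ofNat, e_w] at this
    simp [a0, pnt_w, pnt_x, pnt_y, pnt_z] at this
    exact this
  have e_z : v jz = 0 := by
    have := hj jz
    rw [p_z] at this
    simp only [dir_mul, dir_sub, dir_add, dir_neg, dir_pow_two, dir_pow_three, dir_X, dir_one,
      dir_ofNat, eval_X, map_sub, map_add, map_mul, map_one, map_ofNat, e_w] at this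
    simp [a0, pnt_w, pnt_x, pnt_y, pnt_z] at this
    exact this
  have e_u : ∀ j, v (ju j) = 0 := by
    intro j
    have := hj (ju j)
    rw [p_u] at this
    simp only [dir_mul, dir_sub, dir_add, dir_neg, dir_pow_two, dir_pow_three, dir_X, dir_one,
      dir_ofNat, eval_X, map_sub, map_add, map_mul, map_one, map_ofNat, e_w] at this
    simp [a0, pnt_w, pnt_u] at this
    exact this
  have e_t : v jt = 0 := by
    have := hj jw
    rw [p_w] at this
    simp only [dir_mul, dir_sub, dir_add, dir_neg, dir_pow_two, dir_pow_three, dir_X, dir_one,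
      dir_ofNat, dir_sum, eval_X, map_sub, map_add, map_mul, map_one, map_ofNat, e_w, e_x, e_y,
      e_z, e_u] at this
    have h2 : dir (a0 k) v (2 : MvPolynomial (Fin (k + 5)) ℂ) = 0 := dir_ofNat _ _ 2
    rw [h2] at this
    simp only [a0, pnt_w, pnt_x, pnt_y, pnt_z, pnt_t, pnt_u] at this
    norm_num at this
    exact this
  exact ext_pt e_t e_w e_x e_y e_z e_u

end

end Pool.Agent.Lib.AA2e78
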